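import Mathlib

set_option autoImplicit false

/-! Taylor coefficients of `z φ'(z) / φ(z)` and the zeros of `φ` in a disc. -/

namespace Pool.Agent.E8helper6.LI

open Complex Filter Topology Metric

noncomputable section

/-- the `n`-th Taylor coefficient at `0` -/
def co (n : ℕ) (h : ℂ → ℂ) : ℂ := iteratedDeriv n h 0 / (n.factorial : ℂ)

/-- `z φ'(z) / φ(z)` -/
def ld (φ : ℂ → ℂ) (z : ℂ) : ℂ := z * deriv φ z / φ z

lemma co_congr {n : ℕ} {h g : ℂ → ℂ} (e : h =ᶠ[𝓝 0] g) : co n h = co n g := by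
  unfold co
  rw [(e.iteratedDeriv n).eq_of_nhds]

lemma co_add {n : ℕ} {h g : ℂ → ℂ} (hh : AnalyticAt ℂ h 0) (hg : AnalyticAt ℂ g 0) :
    co n (fun z => h z + g z) = co n h + co n g := by
  unfold co
  rw [iteratedDeriv_fun_add hh.contDiffAt hg.contDiffAt, add_div]

lemma co_sub {n : ℕ} {h g : ℂ → ℂ} (hh : AnalyticAt ℂ h 0) (hg : AnalyticAt ℂ g 0) :
    co n (fun z => h z - g z) = co n h - co n g := by
  unfold co
  rw [iteratedDeriv_fun_sub hh.contDiffAt hg.contDiffAt, sub_div]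

lemma co_const_mul {n : ℕ} {h : ℂ → ℂ} (c : ℂ) (hh : AnalyticAt ℂ h 0) :
    co n (fun z => c * h z) = c * co n h := by
  unfold co
  rw [iteratedDeriv_const_mul c hh.contDiffAt, mul_div_assoc]

lemma analyticAt_pole {b : ℂ} (hb : b ≠ 0) : AnalyticAt ℂ (fun z : ℂ => z / (z - b)) 0 := by
  refine AnalyticAt.div analyticAt_id (analyticAt_id.sub analyticAt_const) ?_
  simpa using hb

lemma co_pole {n : ℕ} (hn : 1 ≤ n) {b : ℂ} (hb : b ≠ 0) :
    co n (fun z => z / (z - b)) = - (b⁻¹) ^ n := by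
  have e : (fun z : ℂ => z / (z - b)) =ᶠ[𝓝 0] fun z => 1 + b * (1 * z - b)⁻¹ := by
    have h1 : ∀ᶠ z in 𝓝 (0 : ℂ), z ≠ b := isOpen_ne.mem_nhds hb.symm
    filter_upwards [h1] with z hz
    have : z - b ≠ 0 := sub_ne_zero.2 hz
    rw [one_mul]
    field_simp
    ring
  have hA : AnalyticAt ℂ (fun z : ℂ => (1 * z - b)⁻¹) 0 := by
    refine AnalyticAt.inv ((analyticAt_const.mul analyticAt_id).sub analyticAt_const) ?_
    simpa using hb
  unfold co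
  rw [(e.iteratedDeriv n).eq_of_nhds, iteratedDeriv_const_add (by omega),
    iteratedDeriv_const_mul b hA.contDiffAt, iteratedDeriv_eq_iterate, iter_deriv_inv_linear_sub]
  have hf : (n.factorial : ℂ) ≠ 0 := by exact_mod_cast n.factorial_ne_zero
  simp only [mul_zero, zero_sub, one_pow, mul_one]
  have h2 : (-b) ^ (-1 - (n : ℤ)) = -((-1) ^ n * (b⁻¹) ^ n * b⁻¹) := by
    have : (-1 - (n : ℤ)) = -((n + 1 : ℕ) : ℤ) := by push_cast; ring
    rw [this, zpow_neg, zpow_natCast, neg_pow, mul_inv, pow_succ, inv_pow, pow_succ]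
    have h3 : (((-1 : ℂ) ^ n * -1)⁻¹) = -((-1) ^ n) := by
      rcases Nat.even_or_odd n with h | h
      · rw [h.neg_one_pow]; norm_num
      · rw [h.neg_one_pow]; norm_num
    rw [h3, mul_inv]
    ring
  rw [h2]
  have h4 : ((-1 : ℂ) ^ n) * (-1) ^ n = 1 := by
    rw [← mul_pow]; norm_num
  field_simp
  linear_combination (-1 : ℂ) * h4

lemma co_bound {n : ℕ} {g : ℂ → ℂ} {R C : ℝ} (hR : 0 < R) (hg : DiffContOnCl ℂ g (ball 0 R))
    (hC : ∀ z ∈ sphere (0 : ℂ) R, ‖g z‖ ≤ C) : ‖co n g‖ ≤ C / R ^ n := by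
  have h := Complex.norm_iteratedDeriv_le_of_forall_mem_sphere_norm_le n hR hg hC
  have hf : (0 : ℝ) < n.factorial := by exact_mod_cast n.factorial_pos
  unfold co
  rw [norm_div, Complex.norm_natCast, div_le_iff₀ hf]
  calc _ ≤ _ := h
    _ = _ := by ring

lemma diffContOnCl_of {g : ℂ → ℂ} {R : ℝ} (hg : AnalyticOnNhd ℂ g (closedBall 0 R)) :
    DiffContOnCl ℂ g (ball 0 R) := by
  refine ⟨fun z hz => ((hg z (ball_subset_closedBall hz)).differentiableAt).differentiableWithinAt, ?_⟩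
  exact fun z hz => (hg z (closure_ball_subset_closedBall hz)).continuousAt.continuousWithinAt

/-- dividing out a zero -/
lemma divide {φ : ℂ → ℂ} {U : Set ℂ} (hφ : AnalyticOnNhd ℂ φ U) {b : ℂ} (hb : b ∈ U)
    (hne : ¬ ∀ᶠ z in 𝓝 b, φ z = 0) : ∃ (m : ℕ) (g : ℂ → ℂ), AnalyticOnNhd ℂ g U ∧ g b ≠ 0 ∧
      ∀ z, φ z = (z - b) ^ m * g z := by
  classical
  obtain ⟨m, g0, hg0, hg0b, he⟩ := (hφ b hb).exists_eventuallyEq_pow_smul_nonzero_iff.mpr hne
  refine ⟨m, fun z => if z = b then g0 b else φ z / (z - b) ^ m, ?_, ?_, ?_⟩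
  · intro z hz
    by_cases hzb : z = b
    · subst hzb
      refine hg0.congr ?_
      filter_upwards [he] with w hw
      by_cases hwb : w = z
      · subst hwb
        rw [if_pos rfl]
      · rw [if_neg hwb, hw, smul_eq_mul]
        have : (w - z) ^ m ≠ 0 := pow_ne_zero _ (sub_ne_zero.2 hwb)
        field_simp
    · have h1 : AnalyticAt ℂ (fun w => φ w / (w - b) ^ m) z := by
        refine (hφ z hz).div ((analyticAt_id.sub analyticAt_const).pow m) ?_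
        exact pow_ne_zero _ (sub_ne_zero.2 hzb)
      refine h1.congr ?_
      filter_upwards [isOpen_ne.mem_nhds hzb] with w hw
      rw [if_neg hw]
  · simpa using hg0b
  · intro z
    by_cases hzb : z = b
    · subst hzb
      simp only [if_true]
      have := he.self_of_nhds
      rwa [smul_eq_mul] at this
    · simp only [if_neg hzb]
      have : (z - b) ^ m ≠ 0 := pow_ne_zero _ (sub_ne_zero.2 hzb)
      field_simp

lemma ld_divide {φ g : ℂ → ℂ} {b : ℂ} (hb : b ≠ 0) {m : ℕ} (hg : AnalyticAt ℂ g 0) (hg0 : g 0 ≠ 0)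
    (h : ∀ z, φ z = (z - b) ^ m * g z) :
    ld φ =ᶠ[𝓝 0] fun z => (m : ℂ) * (z / (z - b)) + ld g z := by
  have h1 : ∀ᶠ z in 𝓝 (0 : ℂ), z ≠ b := isOpen_ne.mem_nhds hb.symm
  have h2 : ∀ᶠ z in 𝓝 (0 : ℂ), g z ≠ 0 := hg.continuousAt.eventually_ne hg0
  have h3 : ∀ᶠ z in 𝓝 (0 : ℂ), AnalyticAt ℂ g z := hg.eventually_analyticAt
  filter_upwards [h1, h2, h3] with z hz1 hz2 hz3
  have hφ : φ = fun z => (z - b) ^ m * g z := funext h
  have hd : deriv φ z = (m * (z - b) ^ (m - 1)) * g z + (z - b) ^ m * deriv g z := by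
    rw [hφ]
    have e1 : HasDerivAt (fun z : ℂ => (z - b) ^ m) (m * (z - b) ^ (m - 1)) z := by
      have := ((hasDerivAt_id z).sub_const b).fun_pow m
      simpa using this
    exact (e1.mul hz3.differentiableAt.hasDerivAt).deriv
  unfold ld
  rw [hd, h z]
  have hzb : z - b ≠ 0 := sub_ne_zero.2 hz1
  rcases Nat.eq_zero_or_pos m with hm | hm
  · subst hm
    simp
  · obtain ⟨k, rfl⟩ : ∃ k, m = k + 1 := ⟨m - 1, by omega⟩
    rw [Nat.add_sub_cancel, pow_succ]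
    field_simp

lemma co_ld_divide {φ g : ℂ → ℂ} {b : ℂ} (hb : b ≠ 0) {m n : ℕ} (hn : 1 ≤ n) (hg : AnalyticAt ℂ g 0)
    (hg0 : g 0 ≠ 0) (h : ∀ z, φ z = (z - b) ^ m * g z) :
    co n (ld φ) = (m : ℂ) * (- (b⁻¹) ^ n) + co n (ld g) := by
  have hA : AnalyticAt ℂ (ld g) 0 := (analyticAt_id.mul hg.deriv).div hg hg0
  have hB : AnalyticAt ℂ (fun z : ℂ => (m : ℂ) * (z / (z - b))) 0 := analyticAt_const.mul (analyticAt_pole hb)
  rw [co_congr (ld_divide hb hg hg0 h), co_add hB hA, co_const_mul _ (analyticAt_pole hb), co_pole hn hb]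

lemma analytic_ld {g : ℂ → ℂ} {z : ℂ} (hg : AnalyticAt ℂ g z) (h0 : g z ≠ 0) : AnalyticAt ℂ (ld g) z :=
  (analyticAt_id.mul hg.deriv).div hg h0

/-- the Taylor coefficients of `z φ' / φ` if `φ` has at most the zeros `b`, `c` in a disc -/
theorem expand {φ : ℂ → ℂ} {R : ℝ} (hR : 0 < R) (hφ : AnalyticOnNhd ℂ φ (closedBall 0 R)) {b c : ℂ}
    (hbc : b ≠ c) (hb : b ∈ closedBall (0 : ℂ) R) (hc : c ∈ closedBall (0 : ℂ) R) (hb0 : φ b = 0)
    (hφ0 : φ 0 ≠ 0) (hb' : b ≠ 0) (hc' : c ≠ 0)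
    (hz : ∀ z ∈ closedBall (0 : ℂ) R, φ z = 0 → z = b ∨ z = c) :
    ∃ m₁ m₂ : ℕ, 1 ≤ m₁ ∧ ∃ C : ℝ, ∀ n : ℕ, 1 ≤ n →
      ‖co n (ld φ) + (m₁ * (b⁻¹) ^ n + m₂ * (c⁻¹) ^ n)‖ ≤ C / R ^ n := by
  have h0m : (0 : ℂ) ∈ closedBall (0 : ℂ) R := mem_closedBall_self hR.le
  have hconv : IsPreconnected (closedBall (0 : ℂ) R) := (convex_closedBall 0 R).isPreconnected
  obtain ⟨m₁, g₁, hg₁, hg₁b, e₁⟩ := divide hφ hb (fun h => by
    exact hφ0 (hφ.eqOn_zero_of_preconnected_of_eventuallyEq_zero hconv hb h h0m))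
  have hg₁0 : g₁ 0 ≠ 0 := fun h => hφ0 (by rw [e₁, h, mul_zero])
  obtain ⟨m₂, g₂, hg₂, hg₂c, e₂⟩ := divide hg₁ hc (fun h => by
    exact hg₁0 (hg₁.eqOn_zero_of_preconnected_of_eventuallyEq_zero hconv hc h h0m))
  have hg₂0 : g₂ 0 ≠ 0 := fun h => hg₁0 (by rw [e₂, h, mul_zero])
  have hg₂b : g₂ b ≠ 0 := fun h => hg₁b (by rw [e₂, h, mul_zero])
  have hm₁ : 1 ≤ m₁ := by
    by_contra hcon
    have : m₁ = 0 := by omega
    rw [e₁, this, pow_zero, one_mul] at hb0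
    exact hg₁b hb0
  have hne : ∀ z ∈ closedBall (0 : ℂ) R, g₂ z ≠ 0 := by
    intro z hz1 h
    have h2 : φ z = 0 := by rw [e₁, e₂, h, mul_zero, mul_zero]
    rcases hz z hz1 h2 with h3 | h3
    · exact hg₂b (h3 ▸ h)
    · exact hg₂c (h3 ▸ h)
  have hA : AnalyticOnNhd ℂ (ld g₂) (closedBall 0 R) := fun z hz1 => analytic_ld (hg₂ z hz1) (hne z hz1)
  obtain ⟨C, hC⟩ : ∃ C, ∀ z ∈ sphere (0 : ℂ) R, ‖ld g₂ z‖ ≤ C := by
    have hcont : ContinuousOn (ld g₂) (sphere 0 R) := fun z hz1 =>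
      (hA z (sphere_subset_closedBall hz1)).continuousAt.continuousWithinAt
    exact (isCompact_sphere (0 : ℂ) R).exists_bound_of_continuousOn hcont
  refine ⟨m₁, m₂, hm₁, C, fun n hn => ?_⟩
  have k1 : co n (ld φ) = (m₁ : ℂ) * (- (b⁻¹) ^ n) + co n (ld g₁) := co_ld_divide hb' hn (hg₁ 0 h0m) hg₁0 e₁
  have k2 : co n (ld g₁) = (m₂ : ℂ) * (- (c⁻¹) ^ n) + co n (ld g₂) := co_ld_divide hc' hn (hg₂ 0 h0m) hg₂0 e₂
  have k3 : co n (ld φ) + (m₁ * (b⁻¹) ^ n + m₂ * (c⁻¹) ^ n) = co n (ld g₂) := by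
    rw [k1, k2]
    ring
  rw [k3]
  exact co_bound hR (diffContOnCl_of hA) hC

end

end Pool.Agent.E8helper6.LI
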