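import Mathlib

set_option autoImplicit false

/-! Weyl: for an injective sequence of natural numbers `ν` and almost every real `θ` the numbers
`ν k * θ` are equidistributed modulo `2 π`. -/

namespace Pool.Agent.E8helper6.LI

open Complex Filter Topology MeasureTheory Finset
open scoped Real

noncomputable section

/-- the exponential sums -/
def es (ν : ℕ → ℕ) (h : ℤ) (K : ℕ) (θ : ℝ) : ℂ := ∑ k ∈ range K, exp (((h : ℝ) * (ν k : ℝ) * θ : ℝ) * I)

/-- Weyl's criterion -/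
def Weyl (ν : ℕ → ℕ) (θ : ℝ) : Prop :=
  ∀ h : ℤ, h ≠ 0 → Tendsto (fun K : ℕ => es ν h K θ / (K : ℂ)) atTop (𝓝 0)

lemma es_cont (ν : ℕ → ℕ) (h : ℤ) (K : ℕ) : Continuous (es ν h K) := by
  unfold es
  fun_prop

lemma norm_es_le (ν : ℕ → ℕ) (h : ℤ) (K : ℕ) (θ : ℝ) : ‖es ν h K θ‖ ≤ K := by
  unfold es
  refine (norm_sum_le _ _).trans ?_
  calc ∑ k ∈ range K, ‖exp (((h : ℝ) * (ν k : ℝ) * θ : ℝ) * I)‖ = ∑ k ∈ range K, (1 : ℝ) := by
        refine Finset.sum_congr rfl fun k _ => ?_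
        exact Complex.norm_exp_ofReal_mul_I _
    _ = K := by simp
    _ ≤ K := le_rfl

/-- the integral of `exp (i m θ)` over a symmetric interval of length `4 π N` -/
lemma int_exp (m : ℤ) (hm : m ≠ 0) (N : ℕ) :
    ∫ θ in (-(2 * π * N))..(2 * π * N), exp (((m : ℝ) * θ : ℝ) * I) = 0 := by
  have hc : ((m : ℂ) * I) ≠ 0 := mul_ne_zero (by exact_mod_cast hm) I_ne_zero
  have h1 : ∀ θ : ℝ, exp (((m : ℝ) * θ : ℝ) * I) = exp ((m : ℂ) * I * θ) := by
    intro θ
    congr 1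
    push_cast
    ring
  simp only [h1]
  rw [integral_exp_mul_complex hc]
  have h2 : exp ((m : ℂ) * I * ((2 * π * N : ℝ) : ℂ)) = 1 := by
    have : (m : ℂ) * I * ((2 * π * N : ℝ) : ℂ) = ((m * N : ℤ) : ℂ) * (2 * π * I) := by
      push_cast
      ring
    rw [this, Complex.exp_int_mul_two_pi_mul_I]
  have h3 : exp ((m : ℂ) * I * ((-(2 * π * N) : ℝ) : ℂ)) = 1 := by
    have : (m : ℂ) * I * ((-(2 * π * N) : ℝ) : ℂ) = ((-(m * N) : ℤ) : ℂ) * (2 * π * I) := by
      push_cast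
      ring
    rw [this, Complex.exp_int_mul_two_pi_mul_I]
  rw [h2, h3, sub_self, zero_div]

lemma int_sq {ν : ℕ → ℕ} (hν : Function.Injective ν) {h : ℤ} (hh : h ≠ 0) (K N : ℕ) :
    ∫ θ in (-(2 * π * N))..(2 * π * N), ‖es ν h K θ‖ ^ 2 = 4 * π * N * K := by
  have h1 : ∀ θ : ℝ, (((‖es ν h K θ‖ ^ 2 : ℝ)) : ℂ) =
      ∑ k ∈ range K, ∑ l ∈ range K, exp ((((h * ((ν k : ℤ) - ν l) : ℤ) : ℝ) * θ : ℝ) * I) := by
    intro θ
    have e1 : (((‖es ν h K θ‖ ^ 2 : ℝ)) : ℂ) = es ν h K θ * (starRingEnd ℂ) (es ν h K θ) := by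
      rw [Complex.mul_conj, Complex.normSq_eq_norm_sq]
    rw [e1]
    unfold es
    rw [map_sum, Finset.sum_mul_sum]
    refine Finset.sum_congr rfl fun k _ => Finset.sum_congr rfl fun l _ => ?_
    rw [← Complex.exp_conj, ← Complex.exp_add]
    congr 1
    rw [map_mul, Complex.conj_ofReal, Complex.conj_I]
    push_cast
    ring
  have h2 : ((∫ θ in (-(2 * π * N))..(2 * π * N), ‖es ν h K θ‖ ^ 2 : ℝ) : ℂ) = ((4 * π * N * K : ℝ) : ℂ) := by
    rw [← intervalIntegral.integral_ofReal]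
    simp only [h1]
    rw [intervalIntegral.integral_finsetSum (fun k _ => by
      apply Continuous.intervalIntegrable
      fun_prop)]
    have h3 : ∀ k ∈ range K, (∫ θ in (-(2 * π * N))..(2 * π * N),
        ∑ l ∈ range K, exp ((((h * ((ν k : ℤ) - ν l) : ℤ) : ℝ) * θ : ℝ) * I)) = ((4 * π * N : ℝ) : ℂ) := by
      intro k hk
      rw [intervalIntegral.integral_finsetSum (fun k _ => by
        apply Continuous.intervalIntegrable
        fun_prop)]
      rw [Finset.sum_eq_single k]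
      · simp only [sub_self, mul_zero, Int.cast_zero, zero_mul, Complex.ofReal_zero, Complex.exp_zero,
          intervalIntegral.integral_const, Complex.real_smul, mul_one]
        push_cast
        ring
      · intro l _ hlk
        apply int_exp
        refine mul_ne_zero hh ?_
        intro h0
        apply hlk
        apply hν
        omega
      · intro h0
        exact absurd hk h0
    rw [Finset.sum_congr rfl h3]
    simp
    ring
  exact_mod_cast h2

/-- almost sure convergence along the squares on a bounded interval -/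
lemma ae_squares {ν : ℕ → ℕ} (hν : Function.Injective ν) {h : ℤ} (hh : h ≠ 0) (N : ℕ) :
    ∀ᵐ θ ∂(volume.restrict (Set.Ioc (-(2 * π * N)) (2 * π * N))),
      Tendsto (fun m : ℕ => es ν h ((m + 1) ^ 2) θ / (((m + 1) ^ 2 : ℕ) : ℂ)) atTop (𝓝 0) := by
  set μ := volume.restrict (Set.Ioc (-(2 * π * N)) (2 * π * (N : ℝ))) with hμ
  have hab : -(2 * π * (N : ℝ)) ≤ 2 * π * N := by
    have : 0 ≤ 2 * π * (N : ℝ) := by positivity
    linarith
  let a : ℕ → ℝ → ℝ := fun m θ => ‖es ν h ((m + 1) ^ 2) θ‖ ^ 2 / (((m : ℝ) + 1) ^ 2) ^ 2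
  have hacont : ∀ m, Continuous (a m) := fun m => ((es_cont ν h _).norm.pow 2).div_const _
  have ha0 : ∀ m θ, 0 ≤ a m θ := fun m θ => by positivity
  have hint : ∀ m, ∫⁻ θ, ENNReal.ofReal (a m θ) ∂μ = ENNReal.ofReal (4 * π * N / ((m : ℝ) + 1) ^ 2) := by
    intro m
    rw [← ofReal_integral_eq_lintegral_ofReal ((hacont m).integrableOn_Ioc) (Eventually.of_forall (ha0 m))]
    congr 1
    rw [← intervalIntegral.integral_of_le hab]
    show ∫ θ in (-(2 * π * N))..(2 * π * N), ‖es ν h ((m + 1) ^ 2) θ‖ ^ 2 / (((m : ℝ) + 1) ^ 2) ^ 2 = _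
    rw [intervalIntegral.integral_div, int_sq hν hh]
    push_cast
    field_simp
  have hsum : ∫⁻ θ, ∑' m, ENNReal.ofReal (a m θ) ∂μ < ⊤ := by
    rw [lintegral_tsum (fun m => (hacont m).measurable.ennreal_ofReal.aemeasurable)]
    simp only [hint]
    have hs : Summable fun m : ℕ => 4 * π * N / ((m : ℝ) + 1) ^ 2 := by
      have h1 : Summable fun m : ℕ => 1 / ((m : ℝ) + 1) ^ 2 := by
        have := (summable_nat_add_iff 1).mpr (Real.summable_one_div_nat_pow.mpr one_lt_two)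
        simpa using this
      have := h1.mul_left (4 * π * N)
      refine this.congr fun m => ?_
      ring
    rw [← ENNReal.ofReal_tsum_of_nonneg (fun m => by positivity) hs]
    exact ENNReal.ofReal_lt_top
  have hmeas : AEMeasurable (fun θ => ∑' m, ENNReal.ofReal (a m θ)) μ :=
    AEMeasurable.tsum fun m => (hacont m).measurable.ennreal_ofReal.aemeasurable
  filter_upwards [ae_lt_top' hmeas hsum.ne] with θ hθ
  have h1 : Tendsto (fun m => ENNReal.ofReal (a m θ)) atTop (𝓝 0) :=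
    ENNReal.tendsto_atTop_zero_of_tsum_ne_top hθ.ne
  have h2 : Tendsto (fun m => a m θ) atTop (𝓝 0) := by
    have := (ENNReal.tendsto_toReal ENNReal.zero_ne_top).comp h1
    simp only [Function.comp_def, ENNReal.toReal_zero] at this
    refine this.congr fun m => ?_
    exact ENNReal.toReal_ofReal (ha0 m θ)
  rw [tendsto_zero_iff_norm_tendsto_zero]
  have h3 := h2.sqrt
  rw [Real.sqrt_zero] at h3
  refine h3.congr fun m => ?_
  show Real.sqrt (‖es ν h ((m + 1) ^ 2) θ‖ ^ 2 / (((m : ℝ) + 1) ^ 2) ^ 2) = _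
  rw [← div_pow, Real.sqrt_sq (by positivity), norm_div, Complex.norm_natCast]
  push_cast
  rfl

lemma fill {ν : ℕ → ℕ} {h : ℤ} {θ : ℝ}
    (hs : Tendsto (fun m : ℕ => es ν h ((m + 1) ^ 2) θ / (((m + 1) ^ 2 : ℕ) : ℂ)) atTop (𝓝 0)) :
    Tendsto (fun K : ℕ => es ν h K θ / (K : ℂ)) atTop (𝓝 0) := by
  rw [tendsto_zero_iff_norm_tendsto_zero] at hs ⊢
  have hsq : Tendsto (fun K : ℕ => Nat.sqrt K - 1) atTop atTop := by
    refine tendsto_atTop.2 fun b => ?_
    filter_upwards [eventually_ge_atTop ((b + 1) ^ 2)] with K hK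
    have : b + 1 ≤ Nat.sqrt K := by
      rw [Nat.le_sqrt']
      exact hK
    omega
  have h1 := hs.comp hsq
  have h2 : Tendsto (fun K : ℕ => 2 / (Nat.sqrt K : ℝ)) atTop (𝓝 0) := by
    have h3 : Tendsto (fun K : ℕ => (Nat.sqrt K : ℝ)) atTop atTop := by
      refine tendsto_natCast_atTop_atTop.comp ?_
      refine tendsto_atTop.2 fun b => ?_
      filter_upwards [eventually_ge_atTop (b ^ 2)] with K hK
      rw [Nat.le_sqrt']
      exact hK
    exact h3.const_div_atTop 2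
  have h4 := h1.add h2
  rw [add_zero] at h4
  refine squeeze_zero' (Eventually.of_forall fun K => norm_nonneg _) ?_ h4
  filter_upwards [eventually_ge_atTop 1] with K hK
  set m := Nat.sqrt K with hm
  have hm1 : 1 ≤ m := by
    rw [hm, Nat.le_sqrt']
    simpa using hK
  have hmK : m ^ 2 ≤ K := Nat.sqrt_le' K
  have hmK2 : K ≤ m ^ 2 + 2 * m := by
    have := Nat.sqrt_le_add K
    rw [← hm] at this
    nlinarith
  have hmm : m - 1 + 1 = m := by omega
  simp only [Function.comp_apply]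
  have hsplit : es ν h K θ = es ν h (m ^ 2) θ + ∑ k ∈ Finset.Ico (m ^ 2) K, exp (((h : ℝ) * (ν k : ℝ) * θ : ℝ) * I) := by
    unfold es
    rw [Finset.sum_range_add_sum_Ico _ hmK]
  have hb : ‖∑ k ∈ Finset.Ico (m ^ 2) K, exp (((h : ℝ) * (ν k : ℝ) * θ : ℝ) * I)‖ ≤ 2 * m := by
    refine (norm_sum_le _ _).trans ?_
    calc ∑ k ∈ Finset.Ico (m ^ 2) K, ‖exp (((h : ℝ) * (ν k : ℝ) * θ : ℝ) * I)‖
        = ∑ k ∈ Finset.Ico (m ^ 2) K, (1 : ℝ) := by
          refine Finset.sum_congr rfl fun k _ => ?_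
          exact Complex.norm_exp_ofReal_mul_I _
      _ = ((K - m ^ 2 : ℕ) : ℝ) := by simp
      _ ≤ ((2 * m : ℕ) : ℝ) := by
          exact_mod_cast (by omega : K - m ^ 2 ≤ 2 * m)
      _ = 2 * m := by push_cast; ring
  have hmpos : (0 : ℝ) < m := by exact_mod_cast hm1
  have hKm : ((m : ℝ)) ^ 2 ≤ K := by exact_mod_cast hmK
  have hKpos : (0 : ℝ) < K := lt_of_lt_of_le (by positivity) hKm
  rw [norm_div, Complex.norm_natCast, norm_div, Complex.norm_natCast, hsplit, ← hm, hmm, Nat.cast_pow]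
  calc ‖es ν h (m ^ 2) θ + ∑ k ∈ Finset.Ico (m ^ 2) K, exp (((h : ℝ) * (ν k : ℝ) * θ : ℝ) * I)‖ / (K : ℝ)
      ≤ (‖es ν h (m ^ 2) θ‖ + 2 * m) / K := by
        gcongr
        exact (norm_add_le _ _).trans (add_le_add le_rfl hb)
    _ ≤ (‖es ν h (m ^ 2) θ‖ + 2 * m) / (m : ℝ) ^ 2 := by
        gcongr
    _ = ‖es ν h (m ^ 2) θ‖ / (m : ℝ) ^ 2 + 2 / m := by
        field_simp

/-- Weyl's theorem -/
theorem ae_weyl {ν : ℕ → ℕ} (hν : Function.Injective ν) : ∀ᵐ θ : ℝ, Weyl ν θ := by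
  unfold Weyl
  rw [ae_all_iff]
  intro h
  by_cases hh : h = 0
  · exact Eventually.of_forall fun θ h0 => absurd hh h0
  have h1 : ∀ N : ℕ, ∀ᵐ θ : ℝ, θ ∈ Set.Ioc (-(2 * π * N)) (2 * π * (N : ℝ)) →
      Tendsto (fun m : ℕ => es ν h ((m + 1) ^ 2) θ / (((m + 1) ^ 2 : ℕ) : ℂ)) atTop (𝓝 0) := fun N =>
    (ae_restrict_iff' measurableSet_Ioc).1 (ae_squares hν hh N)
  have h2 := ae_all_iff.2 h1
  filter_upwards [h2] with θ hθ _
  apply fill
  obtain ⟨N, hN⟩ := exists_nat_gt (|θ| / (2 * π))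
  apply hθ N
  rw [div_lt_iff₀ (by positivity)] at hN
  have h3 := abs_lt.1 hN
  constructor <;> nlinarith [h3.1, h3.2]

end

end Pool.Agent.E8helper6.LI
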