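import Pool.Agent.E8helper6.LI.Pos
import Pool.Agent.Y22.RX3

set_option autoImplicit false

/-! The law of the signs for even real entire functions of order less than two; the discriminant. -/

namespace Pool.Agent.E8helper6.LI

open Complex Filter Topology Metric
open Pool.Agent.Y22.RX (Ev)
open Pool.Agent.H128R3.GJB (X1)

noncomputable section

lemma deriv_real {g : ℂ → ℂ} (hg : ∀ z, g ((starRingEnd ℂ) z) = (starRingEnd ℂ) (g z)) (z : ℂ) :
    deriv g ((starRingEnd ℂ) z) = (starRingEnd ℂ) (deriv g z) := by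
  have h1 : (starRingEnd ℂ) ∘ g ∘ (starRingEnd ℂ) = g := by
    funext w
    simp only [Function.comp_apply]
    rw [hg, Complex.conj_conj]
  have h2 := congrFun (deriv_conj_conj (f := g)) ((starRingEnd ℂ) z)
  rw [h1] at h2
  simpa using h2

/-- a function with `g (conj z) = conj (g z)` has real derivatives at `0` -/
lemma iter_real {g : ℂ → ℂ} (hg : ∀ z, g ((starRingEnd ℂ) z) = (starRingEnd ℂ) (g z)) (n : ℕ) :
    ∀ z, iteratedDeriv n g ((starRingEnd ℂ) z) = (starRingEnd ℂ) (iteratedDeriv n g z) := by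
  induction n with
  | zero => simpa using hg
  | succ n ih =>
    intro z
    rw [iteratedDeriv_succ]
    exact deriv_real ih z

lemma ld_real {f : ℂ → ℂ} (hf : ∀ z, f ((starRingEnd ℂ) z) = (starRingEnd ℂ) (f z)) (a : ℝ) (n : ℕ) :
    (iteratedDeriv n (ld (ph f a)) 0).im = 0 := by
  have h1 : ∀ z, ph f a ((starRingEnd ℂ) z) = (starRingEnd ℂ) (ph f a z) := by
    intro z
    unfold ph
    rw [← hf, map_div₀, map_mul, map_add, map_sub, map_one, Complex.conj_ofReal]
  have h2 : ∀ z, ld (ph f a) ((starRingEnd ℂ) z) = (starRingEnd ℂ) (ld (ph f a) z) := by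
    intro z
    unfold ld
    rw [deriv_real h1, h1, map_div₀, map_mul]
  have h3 := iter_real h2 n 0
  rw [map_zero] at h3
  exact Complex.conj_eq_iff_im.1 h3.symm

lemma fr_mono {p q : ℕ → Prop} (h : ∀ k, p k → q k) (K : ℕ) : fr p K ≤ fr q K := by
  classical
  unfold fr
  exact div_le_div_of_nonneg_right (Nat.cast_le.2 (Finset.card_le_card
    (Finset.monotone_filter_right _ fun k _ hk => h k hk))) (Nat.cast_nonneg _)

/-- the frequency `1 / 2` of the nonnegative values -/
lemma fr_nonneg {x : ℕ → ℝ} {c : ℝ} {ν : ℕ → ℕ}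
    (h1 : Tendsto (fr fun k => x (ν k) < -Real.exp (c * ν k)) atTop (𝓝 (1 / 2)))
    (h2 : Tendsto (fr fun k => Real.exp (c * ν k) < x (ν k)) atTop (𝓝 (1 / 2))) :
    Tendsto (fr fun k => 0 ≤ x (ν k)) atTop (𝓝 (1 / 2)) := by
  classical
  have hup : Tendsto (fun K => 1 - fr (fun k => x (ν k) < -Real.exp (c * ν k)) K) atTop (𝓝 (1 / 2)) := by
    have := h1.const_sub 1
    norm_num at this
    simpa using this
  refine tendsto_of_tendsto_of_tendsto_of_le_of_le h2 hup (fun K => ?_) (fun K => ?_)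
  · exact fr_mono (fun k hk => (Real.exp_pos _).le.trans hk.le) K
  · have := fr_disjoint (p := fun k => 0 ≤ x (ν k)) (q := fun k => x (ν k) < -Real.exp (c * ν k))
      (fun k h => by
        have := Real.exp_pos (c * ν k)
        linarith [h.1, h.2]) K
    show fr (fun k => 0 ≤ x (ν k)) K ≤ 1 - fr (fun k => x (ν k) < -Real.exp (c * ν k)) K
    linarith

lemma fr_all {p : ℕ → Prop} (h : ∀ k, p k) : Tendsto (fr p) atTop (𝓝 1) := by
  classical
  have : fr p =ᶠ[atTop] fun _ => 1 := by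
    filter_upwards [eventually_ge_atTop 1] with K hK
    unfold fr
    rw [Finset.filter_true_of_mem fun k _ => h k, Finset.card_range]
    have hK' : (K : ℝ) ≠ 0 := by
      have : K ≠ 0 := by omega
      exact_mod_cast this
    exact div_self hK'
  exact tendsto_const_nhds.congr' this.symm

variable {f F : ℂ → ℂ} {K : ℝ}

/-- the law for even functions -/
theorem Ev.law (h : Ev f F K) (hre : ∀ x : ℝ, f x ≠ 0) :
    ((∀ z, f z = 0 → z.re = 0) → ∀ (a : ℝ) (n : ℕ), 0 < a → 0 ≤ (co n (ld (ph f a))).re) ∧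
    (¬ (∀ z, f z = 0 → z.re = 0) → ∀ ν : ℕ → ℕ, Function.Injective ν → ∀ᵐ a : ℝ, 0 < a → ∃ c : ℝ, 0 < c ∧
      Tendsto (fr fun k => (co (ν k) (ld (ph f a))).re < -Real.exp (c * ν k)) atTop (𝓝 (1 / 2)) ∧
      Tendsto (fr fun k => Real.exp (c * ν k) < (co (ν k) (ld (ph f a))).re) atTop (𝓝 (1 / 2))) := by
  constructor
  · intro hz a n ha
    obtain ⟨p, hp1, hp2, -⟩ := h.approx
    exact nonneg h.fdiff hp1 hp2 hz ha n
  · intro hz ν hν
    push Not at hz
    obtain ⟨ρ, h1, h2⟩ := hz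
    refine half_law h.fdiff (fun x _ => hre x) ?_ hν
    rcases lt_or_gt_of_ne h2 with h3 | h3
    · exact ⟨-ρ, by rw [h.even, h1], by simpa using h3⟩
    · exact ⟨ρ, h1, h3⟩

end

end Pool.Agent.E8helper6.LI
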