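import Pool.Agent.E8helper6.LI.Eq

set_option autoImplicit false

/-! Frequencies of signs. -/

namespace Pool.Agent.E8helper6.LI

open Complex Filter Topology MeasureTheory Finset
open scoped Real

noncomputable section

/-- the frequency of `p` among `0, …, K - 1` -/
def fr (p : ℕ → Prop) (K : ℕ) : ℝ := by
  classical exact (((range K).filter p).card : ℝ) / K

local instance : Fact (0 < 2 * π) := ⟨Real.two_pi_pos⟩

lemma int_exp_period (m : ℤ) (hm : m ≠ 0) (t : ℝ) :
    ∫ θ in t..(t + 2 * π), exp (((m : ℝ) * θ : ℝ) * I) = 0 := by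
  have hc : ((m : ℂ) * I) ≠ 0 := mul_ne_zero (by exact_mod_cast hm) I_ne_zero
  have h1 : ∀ θ : ℝ, exp (((m : ℝ) * θ : ℝ) * I) = exp ((m : ℂ) * I * θ) := by
    intro θ
    congr 1
    push_cast
    ring
  simp only [h1]
  rw [integral_exp_mul_complex hc]
  have h2 : exp ((m : ℂ) * I * ((t + 2 * π : ℝ) : ℂ)) = exp ((m : ℂ) * I * t) := by
    have : (m : ℂ) * I * ((t + 2 * π : ℝ) : ℂ) = (m : ℂ) * I * t + (m : ℂ) * (2 * π * I) := by
      push_cast
      ring
    rw [this, Complex.exp_add, Complex.exp_int_mul_two_pi_mul_I, mul_one]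
  rw [h2, sub_self, zero_div]

/-- the averages -/
def av (ν : ℕ → ℕ) (θ : ℝ) (K : ℕ) (F : C(AddCircle (2 * π), ℂ)) : ℂ :=
  (∑ k ∈ range K, F (((ν k : ℝ) * θ : ℝ) : AddCircle (2 * π))) / K

/-- the mean -/
def me (t : ℝ) (F : C(AddCircle (2 * π), ℂ)) : ℂ :=
  (∫ x in t..(t + 2 * π), F (x : AddCircle (2 * π))) / (2 * π)

lemma av_add (ν : ℕ → ℕ) (θ : ℝ) (K : ℕ) (F G : C(AddCircle (2 * π), ℂ)) :
    av ν θ K (F + G) = av ν θ K F + av ν θ K G := by
  unfold av
  simp only [ContinuousMap.add_apply, Finset.sum_add_distrib, add_div]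

lemma av_smul (ν : ℕ → ℕ) (θ : ℝ) (K : ℕ) (c : ℂ) (F : C(AddCircle (2 * π), ℂ)) :
    av ν θ K (c • F) = c * av ν θ K F := by
  unfold av
  simp only [ContinuousMap.smul_apply, smul_eq_mul, ← Finset.mul_sum, mul_div_assoc]

lemma cont_coe (F : C(AddCircle (2 * π), ℂ)) : Continuous fun x : ℝ => F (x : AddCircle (2 * π)) :=
  F.continuous.comp (AddCircle.continuous_mk' (2 * π))

lemma me_add (t : ℝ) (F G : C(AddCircle (2 * π), ℂ)) : me t (F + G) = me t F + me t G := by
  unfold me
  simp only [ContinuousMap.add_apply]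
  rw [intervalIntegral.integral_add ((cont_coe F).intervalIntegrable _ _) ((cont_coe G).intervalIntegrable _ _),
    add_div]

lemma me_smul (t : ℝ) (c : ℂ) (F : C(AddCircle (2 * π), ℂ)) : me t (c • F) = c * me t F := by
  unfold me
  simp only [ContinuousMap.smul_apply, smul_eq_mul]
  rw [intervalIntegral.integral_const_mul, mul_div_assoc]

lemma av_norm (ν : ℕ → ℕ) (θ : ℝ) (K : ℕ) (F : C(AddCircle (2 * π), ℂ)) : ‖av ν θ K F‖ ≤ ‖F‖ := by
  unfold av
  rw [norm_div, Complex.norm_natCast]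
  rcases Nat.eq_zero_or_pos K with h | h
  · subst h
    simp
  · rw [div_le_iff₀ (by exact_mod_cast h)]
    refine (norm_sum_le _ _).trans ?_
    calc ∑ k ∈ range K, ‖F (((ν k : ℝ) * θ : ℝ) : AddCircle (2 * π))‖ ≤ ∑ k ∈ range K, ‖F‖ :=
          Finset.sum_le_sum fun k _ => F.norm_coe_le_norm _
      _ = ‖F‖ * K := by simp [mul_comm]

lemma me_norm (t : ℝ) (F : C(AddCircle (2 * π), ℂ)) : ‖me t F‖ ≤ ‖F‖ := by
  unfold me
  have h2 : ‖((2 : ℂ) * (π : ℂ))‖ = 2 * π := by
    have : ((2 : ℂ) * (π : ℂ)) = ((2 * π : ℝ) : ℂ) := by push_cast; ring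
    rw [this, Complex.norm_real, Real.norm_eq_abs, abs_of_pos Real.two_pi_pos]
  rw [norm_div, h2, div_le_iff₀ Real.two_pi_pos]
  have := intervalIntegral.norm_integral_le_of_norm_le_const (a := t) (b := t + 2 * π) (C := ‖F‖)
    (f := fun x : ℝ => F (x : AddCircle (2 * π))) (fun x _ => F.norm_coe_le_norm _)
  rwa [add_sub_cancel_left, abs_of_pos Real.two_pi_pos] at this

lemma av_fourier (ν : ℕ → ℕ) (θ : ℝ) (K : ℕ) (h : ℤ) : av ν θ K (fourier h) = es ν h K θ / K := by
  unfold av es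
  congr 1
  refine Finset.sum_congr rfl fun k _ => ?_
  rw [fourier_coe_apply]
  congr 1
  have : (π : ℂ) ≠ 0 := by exact_mod_cast Real.pi_ne_zero
  push_cast
  field_simp

lemma me_fourier (t : ℝ) (h : ℤ) : me t (fourier h) = if h = 0 then 1 else 0 := by
  have hp : (π : ℂ) ≠ 0 := by exact_mod_cast Real.pi_ne_zero
  have h1 : ∀ x : ℝ, (fourier h : C(AddCircle (2 * π), ℂ)) (x : AddCircle (2 * π)) = exp (((h : ℝ) * x : ℝ) * I) := by
    intro x
    rw [fourier_coe_apply]
    congr 1
    push_cast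
    field_simp
  unfold me
  simp only [h1]
  split_ifs with h0
  · subst h0
    simp only [Int.cast_zero, zero_mul, Complex.ofReal_zero, Complex.exp_zero, intervalIntegral.integral_const,
      add_sub_cancel_left, Complex.real_smul, mul_one]
    push_cast
    field_simp
  · rw [int_exp_period h h0 t, zero_div]

lemma tendsto_av {ν : ℕ → ℕ} {θ : ℝ} (hW : Weyl ν θ) (t : ℝ) (F : C(AddCircle (2 * π), ℂ)) :
    Tendsto (fun K => av ν θ K F) atTop (𝓝 (me t F)) := by
  have hspan : ∀ G ∈ Submodule.span ℂ (Set.range (fourier (T := 2 * π))),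
      Tendsto (fun K => av ν θ K G) atTop (𝓝 (me t G)) := by
    intro G hG
    induction hG using Submodule.span_induction with
    | mem x hx =>
      obtain ⟨h, rfl⟩ := hx
      rw [me_fourier]
      simp only [av_fourier]
      split_ifs with h0
      · subst h0
        have : (fun K : ℕ => es ν 0 K θ / (K : ℂ)) =ᶠ[atTop] fun _ => 1 := by
          filter_upwards [eventually_ge_atTop 1] with K hK
          have hK' : (K : ℂ) ≠ 0 := by
            have : K ≠ 0 := by omega
            exact_mod_cast this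
          unfold es
          simp [hK']
        exact tendsto_const_nhds.congr' this.symm
      · exact hW h h0
    | zero =>
      have e1 : ∀ K, av ν θ K 0 = 0 := fun K => by simp [av]
      have e2 : me t 0 = 0 := by simp [me]
      simp only [e1, e2]
      exact tendsto_const_nhds
    | add x y _ _ hx hy =>
      simp only [av_add, me_add]
      exact hx.add hy
    | smul c x _ hx =>
      simp only [av_smul, me_smul]
      exact hx.const_mul c
  rw [Metric.tendsto_atTop]
  intro ε hε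
  have hcl : F ∈ (Submodule.span ℂ (Set.range (fourier (T := 2 * π)))).topologicalClosure := by
    rw [span_fourier_closure_eq_top]
    trivial
  rw [← SetLike.mem_coe, Submodule.topologicalClosure_coe, Metric.mem_closure_iff] at hcl
  obtain ⟨G, hG, hGF⟩ := hcl (ε / 3) (by positivity)
  obtain ⟨K0, hK0⟩ := Metric.tendsto_atTop.1 (hspan G hG) (ε / 3) (by positivity)
  refine ⟨K0, fun K hK => ?_⟩
  have h1 := hK0 K hK
  have h2 : ‖av ν θ K (F - G)‖ ≤ ‖F - G‖ := av_norm ν θ K _
  have h3 : ‖me t (F - G)‖ ≤ ‖F - G‖ := me_norm t _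
  have e1 : av ν θ K F = av ν θ K (F - G) + av ν θ K G := by rw [← av_add, sub_add_cancel]
  have e2 : me t F = me t (F - G) + me t G := by rw [← me_add, sub_add_cancel]
  rw [dist_eq_norm] at h1 hGF ⊢
  rw [e1, e2]
  calc ‖av ν θ K (F - G) + av ν θ K G - (me t (F - G) + me t G)‖
      = ‖av ν θ K (F - G) + (av ν θ K G - me t G) - me t (F - G)‖ := by congr 1; ring
    _ ≤ ‖av ν θ K (F - G) + (av ν θ K G - me t G)‖ + ‖me t (F - G)‖ := norm_sub_le _ _
    _ ≤ ‖av ν θ K (F - G)‖ + ‖av ν θ K G - me t G‖ + ‖me t (F - G)‖ := by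
        gcongr
        exact norm_add_le _ _
    _ < ε := by linarith

/-- a continuous function of the cosine -/
def clampf (s c : ℝ) : ℝ := max 0 (min 1 ((c - s / 2) / (s / 2)))

lemma clampf_nonneg (s c : ℝ) : 0 ≤ clampf s c := le_max_left _ _

lemma clampf_le_one (s c : ℝ) : clampf s c ≤ 1 := max_le zero_le_one (min_le_left _ _)

lemma clampf_one {s c : ℝ} (hs : 0 < s) (h : s ≤ c) : clampf s c = 1 := by
  unfold clampf
  have : 1 ≤ (c - s / 2) / (s / 2) := by
    rw [le_div_iff₀ (by positivity)]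
    linarith
  rw [min_eq_left this, max_eq_right zero_le_one]

lemma clampf_zero {s c : ℝ} (hs : 0 < s) (h : c ≤ s / 2) : clampf s c = 0 := by
  unfold clampf
  have : (c - s / 2) / (s / 2) ≤ 0 := div_nonpos_of_nonpos_of_nonneg (by linarith) (by positivity)
  rw [max_eq_left ((min_le_right _ _).trans this)]

lemma clampf_cont (s : ℝ) : Continuous (clampf s) := by
  unfold clampf
  fun_prop

/-- the function `x ↦ clampf s (σ cos x)` on the circle -/
def cl (σ s : ℝ) : C(AddCircle (2 * π), ℂ) where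
  toFun x := ((clampf s (σ * Real.Angle.cos x) : ℝ) : ℂ)
  continuous_toFun := by
    have h1 : Continuous fun x : Real.Angle => Real.Angle.cos x := Real.Angle.continuous_cos
    exact Complex.continuous_ofReal.comp ((clampf_cont s).comp (continuous_const.mul h1))

lemma cl_coe (σ s x : ℝ) : cl σ s (x : AddCircle (2 * π)) = ((clampf s (σ * Real.cos x) : ℝ) : ℂ) := rfl

lemma me_cl (σ s t : ℝ) : me t (cl σ s) = (((∫ x in t..(t + 2 * π), clampf s (σ * Real.cos x)) / (2 * π) : ℝ) : ℂ) := by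
  unfold me
  simp only [cl_coe]
  rw [intervalIntegral.integral_ofReal]
  push_cast
  ring

lemma me_cl_ge {σ s η t u v : ℝ} (hη : 0 ≤ η) (hs : 0 < s) (htu : t ≤ u) (huv : u ≤ v) (hv : v ≤ t + 2 * π)
    (hlen : v - u = π - 2 * η) (hc : ∀ x ∈ Set.Icc u v, s ≤ σ * Real.cos x) :
    1 / 2 - η / π ≤ (me t (cl σ s)).re := by
  have hcont : Continuous fun x : ℝ => clampf s (σ * Real.cos x) := (clampf_cont s).comp (by fun_prop)
  have h1 : ∫ x in u..v, clampf s (σ * Real.cos x) ≤ ∫ x in t..(t + 2 * π), clampf s (σ * Real.cos x) :=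
    intervalIntegral.integral_mono_interval htu huv hv
      (Eventually.of_forall fun x => clampf_nonneg _ _) (hcont.intervalIntegrable _ _)
  have h2 : ∫ x in u..v, clampf s (σ * Real.cos x) = v - u := by
    have : ∫ x in u..v, clampf s (σ * Real.cos x) = ∫ x in u..v, (1 : ℝ) := by
      refine intervalIntegral.integral_congr fun x hx => ?_
      rw [Set.uIcc_of_le huv] at hx
      exact clampf_one hs (hc x hx)
    rw [this]
    simp
  rw [me_cl, Complex.ofReal_re, le_div_iff₀ Real.two_pi_pos]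
  have hpi := Real.pi_pos
  have : (1 / 2 - η / π) * (2 * π) = π - 2 * η := by
    field_simp
  rw [this, ← hlen, ← h2]
  exact h1

lemma fr_ge_av {σ s : ℝ} (hs : 0 < s) (ν : ℕ → ℕ) (θ : ℝ) (K : ℕ) :
    (av ν θ K (cl σ s)).re ≤ fr (fun k => s / 2 < σ * Real.cos (ν k * θ)) K := by
  classical
  unfold av fr
  simp only [cl_coe]
  rw [← Complex.ofReal_sum, ← Complex.ofReal_natCast, ← Complex.ofReal_div, Complex.ofReal_re]
  refine div_le_div_of_nonneg_right ?_ (Nat.cast_nonneg _)
  rw [Finset.card_filter]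
  push_cast
  refine Finset.sum_le_sum fun k _ => ?_
  split_ifs with h
  · exact clampf_le_one _ _
  · rw [clampf_zero hs (not_lt.1 h)]

/-- lower bound for the frequency of `σ cos (ν k θ) > δ`, `σ = ±1` -/
lemma half_lower {ν : ℕ → ℕ} {θ : ℝ} (hW : Weyl ν θ) {σ : ℝ} (hσ : σ = 1 ∨ σ = -1) {ε : ℝ} (hε : 0 < ε) :
    ∃ δ : ℝ, 0 < δ ∧ ∀ᶠ K in atTop, 1 / 2 - ε ≤ fr (fun k => δ < σ * Real.cos (ν k * θ)) K := by
  have hpi := Real.pi_pos
  set η := min (π / 4) (π * ε / 2) with hη
  have hη0 : 0 < η := lt_min (by positivity) (by positivity)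
  have hη1 : η ≤ π / 4 := min_le_left _ _
  have hη2 : η / π ≤ ε / 2 := by
    rw [div_le_iff₀ hpi]
    have := min_le_right (π / 4) (π * ε / 2)
    rw [← hη] at this
    linarith
  have hs : 0 < Real.sin η := Real.sin_pos_of_pos_of_lt_pi hη0 (by linarith)
  obtain ⟨t, ht⟩ : ∃ t, 1 / 2 - η / π ≤ (me t (cl σ (Real.sin η))).re := by
    rcases hσ with rfl | rfl
    · refine ⟨-π, me_cl_ge (u := -(π / 2 - η)) (v := π / 2 - η) hη0.le hs (by linarith) (by linarith)
        (by linarith) (by ring) fun x hx => ?_⟩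
      rw [one_mul, ← Real.cos_pi_div_two_sub, ← Real.cos_abs x]
      apply Real.cos_le_cos_of_nonneg_of_le_pi (abs_nonneg x) (by linarith)
      rw [abs_le]
      exact hx
    · refine ⟨0, me_cl_ge (u := π - (π / 2 - η)) (v := π + (π / 2 - η)) hη0.le hs (by linarith) (by linarith)
        (by linarith) (by ring) fun x hx => ?_⟩
      have e : -1 * Real.cos x = Real.cos (x - π) := by
        rw [Real.cos_sub_pi]
        ring
      rw [e, ← Real.cos_pi_div_two_sub, ← Real.cos_abs (x - π)]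
      apply Real.cos_le_cos_of_nonneg_of_le_pi (abs_nonneg _) (by linarith)
      rw [abs_le]
      constructor <;> linarith [hx.1, hx.2]
  refine ⟨Real.sin η / 2, by positivity, ?_⟩
  have h1 := (Complex.continuous_re.tendsto _).comp (tendsto_av hW t (cl σ (Real.sin η)))
  have h2 : ∀ᶠ K in atTop, (me t (cl σ (Real.sin η))).re - ε / 2 < (av ν θ K (cl σ (Real.sin η))).re :=
    h1.eventually (lt_mem_nhds (by linarith))
  filter_upwards [h2] with K hK
  have h3 := fr_ge_av (σ := σ) hs ν θ K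
  linarith

lemma fr_mono_except {p q : ℕ → Prop} (h : ∀ᶠ k in atTop, p k → q k) {ε : ℝ} (hε : 0 < ε) :
    ∀ᶠ K in atTop, fr p K - ε ≤ fr q K := by
  classical
  obtain ⟨k0, hk0⟩ := eventually_atTop.1 h
  have h1 : ∀ᶠ K : ℕ in atTop, (k0 : ℝ) / K ≤ ε := by
    have : Tendsto (fun K : ℕ => (k0 : ℝ) / K) atTop (𝓝 0) := tendsto_const_div_atTop_nhds_zero_nat _
    filter_upwards [this.eventually (gt_mem_nhds hε)] with K hK
    exact hK.le
  filter_upwards [h1, eventually_gt_atTop 0] with K hK hK0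
  have h2 : (((range K).filter p).card : ℝ) ≤ ((range K).filter q).card + k0 := by
    have hsub : (range K).filter p ⊆ (range K).filter q ∪ range k0 := by
      intro k hk
      rw [Finset.mem_filter] at hk
      rw [Finset.mem_union]
      by_cases hkk : k < k0
      · right
        exact Finset.mem_range.2 hkk
      · left
        exact Finset.mem_filter.2 ⟨hk.1, hk0 k (not_lt.1 hkk) hk.2⟩
    have := (Finset.card_le_card hsub).trans (Finset.card_union_le _ _)
    rw [Finset.card_range] at this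
    exact_mod_cast this
  have hKpos : (0 : ℝ) < K := by exact_mod_cast hK0
  have h3 : fr p K ≤ fr q K + k0 / K := by
    unfold fr
    rw [← add_div]
    exact div_le_div_of_nonneg_right h2 hKpos.le
  linarith

lemma fr_disjoint {p q : ℕ → Prop} (h : ∀ k, ¬ (p k ∧ q k)) (K : ℕ) : fr p K + fr q K ≤ 1 := by
  classical
  unfold fr
  rw [← add_div]
  rcases Nat.eq_zero_or_pos K with h0 | h0
  · subst h0
    simp
  · rw [div_le_one (by exact_mod_cast h0)]
    have hd : Disjoint ((range K).filter p) ((range K).filter q) := by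
      rw [Finset.disjoint_filter]
      exact fun k _ hp hq => h k ⟨hp, hq⟩
    have : ((range K).filter p).card + ((range K).filter q).card ≤ K := by
      rw [← Finset.card_union_of_disjoint hd]
      calc _ ≤ (range K).card := Finset.card_le_card (Finset.union_subset (Finset.filter_subset _ _)
            (Finset.filter_subset _ _))
        _ = K := Finset.card_range K
    exact_mod_cast this

/-- both events have frequency one half -/
lemma half_of_lower {p q : ℕ → Prop} (h : ∀ k, ¬ (p k ∧ q k))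
    (hp : ∀ ε : ℝ, 0 < ε → ∀ᶠ K in atTop, 1 / 2 - ε ≤ fr p K)
    (hq : ∀ ε : ℝ, 0 < ε → ∀ᶠ K in atTop, 1 / 2 - ε ≤ fr q K) :
    Tendsto (fr p) atTop (𝓝 (1 / 2)) := by
  rw [Metric.tendsto_atTop']
  intro ε hε
  have h1 := (hp (ε / 2) (by positivity)).and (hq (ε / 2) (by positivity))
  obtain ⟨K0, hK0⟩ := eventually_atTop.1 h1
  refine ⟨K0, fun K hK => ?_⟩
  obtain ⟨a, b⟩ := hK0 K hK.le
  have c := fr_disjoint h K
  rw [Real.dist_eq, abs_lt]
  constructor <;> linarith

/-- the signs of a sequence `x n ≈ - m r ^ (-n) cos (n θ)` along `ν` -/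
theorem signs {ν : ℕ → ℕ} (hν : Function.Injective ν) {θ : ℝ} (hW : Weyl ν θ) {x : ℕ → ℝ} {m r R C : ℝ}
    (hm : 0 < m) (hr : 0 < r) (hrR : r < R) (hR : R < 1)
    (hx : ∀ n : ℕ, 1 ≤ n → |x n + m * (r⁻¹) ^ n * Real.cos (n * θ)| ≤ C / R ^ n) :
    ∃ c : ℝ, 0 < c ∧ Tendsto (fr fun k => x (ν k) < -Real.exp (c * ν k)) atTop (𝓝 (1 / 2)) ∧
      Tendsto (fr fun k => Real.exp (c * ν k) < x (ν k)) atTop (𝓝 (1 / 2)) := by
  have hR0 : 0 < R := hr.trans hrR
  -- growth
  have key : ∀ δ : ℝ, 0 < δ → ∀ᶠ n : ℕ in atTop,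
      Real.exp (-(Real.log r) / 2 * n) + C / R ^ n < m * (r⁻¹) ^ n * δ := by
    intro δ hδ
    have h1 : Tendsto (fun n : ℕ => (Real.exp (Real.log r / 2)) ^ n) atTop (𝓝 0) := by
      apply tendsto_pow_atTop_nhds_zero_of_lt_one (Real.exp_pos _).le
      rw [Real.exp_lt_one_iff]
      have := Real.log_neg hr (hrR.trans hR)
      linarith
    have h2 : Tendsto (fun n : ℕ => (r / R) ^ n) atTop (𝓝 0) :=
      tendsto_pow_atTop_nhds_zero_of_lt_one (by positivity) ((div_lt_one hR0).2 hrR)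
    have h3 := h1.add (h2.const_mul C)
    rw [mul_zero, add_zero] at h3
    filter_upwards [h3.eventually (gt_mem_nhds (show (0 : ℝ) < m * δ by positivity))] with n hn
    have hrn : 0 < (r⁻¹) ^ n := by positivity
    have h4 := mul_lt_mul_of_pos_right hn hrn
    have e1 : ((Real.exp (Real.log r / 2)) ^ n + C * (r / R) ^ n) * (r⁻¹) ^ n =
        Real.exp (-(Real.log r) / 2 * n) + C / R ^ n := by
      rw [add_mul]
      congr 1
      · rw [← Real.exp_nat_mul, ← Real.exp_log (inv_pos.2 hr), ← Real.exp_nat_mul, ← Real.exp_add, Real.log_inv]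
        congr 1
        ring
      · rw [div_pow, inv_pow]
        field_simp
    rw [e1] at h4
    linarith
  have hνt : Tendsto ν atTop atTop := hν.nat_tendsto_atTop
  refine ⟨-(Real.log r) / 2, by have := Real.log_neg hr (hrR.trans hR); linarith, ?_⟩
  set c := -(Real.log r) / 2 with hc
  have hdis : ∀ k, ¬ (x (ν k) < -Real.exp (c * ν k) ∧ Real.exp (c * ν k) < x (ν k)) := by
    rintro k ⟨h1, h2⟩
    have := Real.exp_pos (c * ν k)
    linarith
  have hlow : ∀ ε : ℝ, 0 < ε → ∀ᶠ K in atTop, 1 / 2 - ε ≤ fr (fun k => x (ν k) < -Real.exp (c * ν k)) K := by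
    intro ε hε
    obtain ⟨δ, hδ, h1⟩ := half_lower hW (σ := 1) (Or.inl rfl) (half_pos hε)
    have h2 : ∀ᶠ k in atTop, δ < 1 * Real.cos (ν k * θ) → x (ν k) < -Real.exp (c * ν k) := by
      filter_upwards [hνt.eventually (key δ hδ), hνt.eventually (eventually_ge_atTop 1)] with k hk hk1 hcos
      have h3 := (abs_le.1 (hx (ν k) hk1)).2
      have h4 : m * (r⁻¹) ^ (ν k) * δ ≤ m * (r⁻¹) ^ (ν k) * Real.cos (ν k * θ) := by
        gcongr
        linarith
      linarith
    filter_upwards [h1, fr_mono_except h2 (half_pos hε)] with K hK1 hK2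
    linarith
  have hup : ∀ ε : ℝ, 0 < ε → ∀ᶠ K in atTop, 1 / 2 - ε ≤ fr (fun k => Real.exp (c * ν k) < x (ν k)) K := by
    intro ε hε
    obtain ⟨δ, hδ, h1⟩ := half_lower hW (σ := -1) (Or.inr rfl) (half_pos hε)
    have h2 : ∀ᶠ k in atTop, δ < -1 * Real.cos (ν k * θ) → Real.exp (c * ν k) < x (ν k) := by
      filter_upwards [hνt.eventually (key δ hδ), hνt.eventually (eventually_ge_atTop 1)] with k hk hk1 hcos
      have h3 := (abs_le.1 (hx (ν k) hk1)).1
      have h4 : m * (r⁻¹) ^ (ν k) * δ ≤ m * (r⁻¹) ^ (ν k) * (-1 * Real.cos (ν k * θ)) := by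
        gcongr
      linarith
    filter_upwards [h1, fr_mono_except h2 (half_pos hε)] with K hK1 hK2
    linarith
  exact ⟨half_of_lower hdis hlow hup, half_of_lower (fun k h => hdis k h.symm) hup hlow⟩

end

end Pool.Agent.E8helper6.LI
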