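import Pool.Agent.E8helper6.LI.Fr
import Pool.Agent.E8helper6.LI.Co

set_option autoImplicit false

/-! The zero nearest to a generic point of the positive half-line, in the hyperbolic metric of the right
half-plane, and the frequencies of the signs of the Taylor coefficients of `z φ' / φ`. -/

namespace Pool.Agent.E8helper6.LI

open Complex Filter Topology MeasureTheory Metric
open scoped Real

noncomputable section

/-- `φ_a(z) = f (a (1 + z) / (1 - z))` -/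
def ph (f : ℂ → ℂ) (a : ℝ) (z : ℂ) : ℂ := f (a * (1 + z) / (1 - z))

/-- the point of the unit disc which corresponds to `ρ` -/
def zp (a : ℝ) (ρ : ℂ) : ℂ := (ρ - a) / (ρ + a)

lemma one_sub_ne {z : ℂ} (hz : ‖z‖ < 1) : 1 - z ≠ 0 := by
  intro h
  have : z = 1 := by linear_combination -h
  rw [this] at hz
  simp at hz

lemma ph_zero {f : ℂ → ℂ} {a : ℝ} : ph f a 0 = f a := by
  unfold ph
  simp

lemma analyticAt_ph {f : ℂ → ℂ} (hf : Differentiable ℂ f) (a : ℝ) {z : ℂ} (hz : ‖z‖ < 1) :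
    AnalyticAt ℂ (ph f a) z := by
  have h1 : AnalyticAt ℂ (fun z : ℂ => (a : ℂ) * (1 + z) / (1 - z)) z :=
    (analyticAt_const.mul (analyticAt_const.add analyticAt_id)).div (analyticAt_const.sub analyticAt_id)
      (one_sub_ne hz)
  exact (hf.analyticAt _).comp h1

lemma analyticOn_ph {f : ℂ → ℂ} (hf : Differentiable ℂ f) (a : ℝ) {R : ℝ} (hR : R < 1) :
    AnalyticOnNhd ℂ (ph f a) (closedBall 0 R) := fun z hz =>
  analyticAt_ph hf a (lt_of_le_of_lt (by simpa using hz) hR)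

/-- the half-plane point -/
def wp (a : ℝ) (z : ℂ) : ℂ := a * (1 + z) / (1 - z)

lemma wp_re {a : ℝ} (ha : 0 < a) {z : ℂ} (hz : ‖z‖ < 1) : 0 < (wp a z).re := by
  have h1 : 1 - z ≠ 0 := one_sub_ne hz
  have e : wp a z = ((a / normSq (1 - z) : ℝ) : ℂ) * ((1 + z) * (starRingEnd ℂ) (1 - z)) := by
    unfold wp
    have h2 : ((normSq (1 - z) : ℝ) : ℂ) = (1 - z) * (starRingEnd ℂ) (1 - z) := (Complex.mul_conj _).symm
    have h3 : (starRingEnd ℂ) (1 - z) ≠ 0 := (map_ne_zero _).2 h1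
    push_cast
    rw [h2]
    field_simp
  have h4 : 0 < normSq (1 - z) := Complex.normSq_pos.2 h1
  rw [e, Complex.re_ofReal_mul]
  refine mul_pos (div_pos ha h4) ?_
  have h5 : z.re ^ 2 + z.im ^ 2 < 1 := by
    have : ‖z‖ ^ 2 < 1 := by nlinarith [norm_nonneg z]
    rw [← Complex.normSq_eq_norm_sq, Complex.normSq_apply] at this
    nlinarith
  simp only [map_sub, map_one, Complex.mul_re, Complex.add_re, Complex.one_re, Complex.sub_re, Complex.conj_re,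
    Complex.add_im, Complex.one_im, Complex.sub_im, Complex.conj_im]
  nlinarith

lemma zp_wp {a : ℝ} (ha : 0 < a) {z : ℂ} (hz : ‖z‖ < 1) : zp a (wp a z) = z := by
  have h1 : 1 - z ≠ 0 := one_sub_ne hz
  have ha' : (a : ℂ) ≠ 0 := by exact_mod_cast ha.ne'
  unfold zp wp
  have e1 : (a : ℂ) * (1 + z) / (1 - z) - a = 2 * a * z / (1 - z) := by
    field_simp
    ring
  have e2 : (a : ℂ) * (1 + z) / (1 - z) + a = 2 * a / (1 - z) := by
    field_simp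
    ring
  rw [e1, e2]
  field_simp

lemma add_ne {a : ℝ} (ha : 0 < a) {ρ : ℂ} (hρ : 0 < ρ.re) : ρ + a ≠ 0 := by
  intro h
  have := congrArg Complex.re h
  simp at this
  linarith

lemma zp_norm {a : ℝ} (ha : 0 < a) {ρ : ℂ} (hρ : 0 < ρ.re) : ‖zp a ρ‖ < 1 := by
  unfold zp
  rw [norm_div, div_lt_one (norm_pos_iff.2 (add_ne ha hρ))]
  rw [← sq_lt_sq₀ (norm_nonneg _) (norm_nonneg _), ← Complex.normSq_eq_norm_sq, ← Complex.normSq_eq_norm_sq,
    Complex.normSq_apply, Complex.normSq_apply]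
  simp
  nlinarith [mul_pos ha hρ]

lemma wp_zp {a : ℝ} (ha : 0 < a) {ρ : ℂ} (hρ : 0 < ρ.re) : wp a (zp a ρ) = ρ := by
  have h1 := add_ne ha hρ
  have ha' : (a : ℂ) ≠ 0 := by exact_mod_cast ha.ne'
  unfold wp zp
  have e1 : (1 : ℂ) + (ρ - a) / (ρ + a) = 2 * ρ / (ρ + a) := by
    field_simp
    ring
  have e2 : (1 : ℂ) - (ρ - a) / (ρ + a) = 2 * a / (ρ + a) := by
    field_simp
    ring
  rw [e1, e2]
  field_simp

lemma zp_conj (a : ℝ) (ρ : ℂ) : zp a ((starRingEnd ℂ) ρ) = (starRingEnd ℂ) (zp a ρ) := by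
  unfold zp
  rw [map_div₀, map_sub, map_add, Complex.conj_ofReal]

/-- finitely many zeros in a disc -/
lemma finite_zeros {g : ℂ → ℂ} {c : ℂ} {R : ℝ} (hR : 0 ≤ R) (hg : AnalyticOnNhd ℂ g (closedBall c R))
    (h0 : g c ≠ 0) : {z ∈ closedBall c R | g z = 0}.Finite := by
  by_contra hinf
  obtain ⟨x, hx, hacc⟩ := Set.Infinite.exists_accPt_of_subset_isCompact hinf (isCompact_closedBall c R)
    (Set.sep_subset _ _)
  rw [accPt_iff_frequently_nhdsNE] at hacc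
  have hfr : ∃ᶠ y in 𝓝[≠] x, g y = 0 := hacc.mono fun y hy => hy.2
  have h1 := hg.eqOn_zero_of_preconnected_of_frequently_eq_zero (convex_closedBall c R).isPreconnected hx hfr
  exact h0 (h1 (mem_closedBall_self hR))

lemma countable_zeros {f : ℂ → ℂ} (hf : Differentiable ℂ f) {c : ℂ} (h0 : f c ≠ 0) : {z | f z = 0}.Countable := by
  have : {z | f z = 0} ⊆ ⋃ N : ℕ, {z ∈ closedBall c (N : ℝ) | f z = 0} := by
    intro z hz
    obtain ⟨N, hN⟩ := exists_nat_ge (dist z c)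
    exact Set.mem_iUnion.2 ⟨N, hN, hz⟩
  refine (Set.countable_iUnion fun N : ℕ => ?_).mono this
  exact (finite_zeros (Nat.cast_nonneg N) (fun z _ => hf.analyticAt z) h0).countable

/-- no ties at the base point `a` -/
def NoTies (f : ℂ → ℂ) (a : ℝ) : Prop := ∀ ρ ρ' : ℂ, f ρ = 0 → f ρ' = 0 → 0 < ρ.re → 0 < ρ'.re →
  ‖zp a ρ‖ = ‖zp a ρ'‖ → ρ' = ρ ∨ ρ' = (starRingEnd ℂ) ρ

lemma tie_eq {a : ℝ} (ha : 0 < a) {ρ ρ' : ℂ} (hρ : 0 < ρ.re) (hρ' : 0 < ρ'.re) (h : ‖zp a ρ‖ = ‖zp a ρ'‖) :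
    ρ'.re * (normSq ρ + a ^ 2) = ρ.re * (normSq ρ' + a ^ 2) := by
  unfold zp at h
  rw [norm_div, norm_div, div_eq_div_iff (norm_pos_iff.2 (add_ne ha hρ)).ne' (norm_pos_iff.2 (add_ne ha hρ')).ne'] at h
  have h2 := congrArg (fun t => t ^ 2) h
  simp only [mul_pow, ← Complex.normSq_eq_norm_sq, Complex.normSq_apply, Complex.sub_re, Complex.sub_im,
    Complex.add_re, Complex.add_im, Complex.ofReal_re, Complex.ofReal_im, sub_zero, add_zero] at h2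
  simp only [Complex.normSq_apply]
  have h3 : 4 * a * (ρ'.re * (ρ.re * ρ.re + ρ.im * ρ.im + a ^ 2) - ρ.re * (ρ'.re * ρ'.re + ρ'.im * ρ'.im + a ^ 2)) = 0 := by
    linear_combination h2
  rcases mul_eq_zero.1 h3 with h4 | h4
  · linarith
  · linarith

lemma ae_noTies {f : ℂ → ℂ} (hf : Differentiable ℂ f) {c : ℂ} (h0 : f c ≠ 0) : ∀ᵐ a : ℝ, 0 < a → NoTies f a := by
  have hZ := countable_zeros hf h0
  set Z := {z | f z = 0} with hZdef
  have hcount : (⋃ ρ ∈ Z, ⋃ ρ' ∈ Z, {a : ℝ | 0 < a ∧ 0 < ρ.re ∧ 0 < ρ'.re ∧ ‖zp a ρ‖ = ‖zp a ρ'‖ ∧ ρ' ≠ ρ ∧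
      ρ' ≠ (starRingEnd ℂ) ρ}).Countable := by
    refine hZ.biUnion fun ρ _ => hZ.biUnion fun ρ' _ => ?_
    apply Set.Subsingleton.countable
    rintro a ⟨ha, h1, h2, h3, h4, h5⟩ b ⟨hb, -, -, h6, -, -⟩
    have e1 := tie_eq ha h1 h2 h3
    have e2 := tie_eq hb h1 h2 h6
    by_contra hab
    have hre : ρ'.re = ρ.re := by
      have : (ρ'.re - ρ.re) * (a ^ 2 - b ^ 2) = 0 := by linear_combination e1 - e2
      rcases mul_eq_zero.1 this with h | h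
      · linarith
      · exfalso
        apply hab
        have : (a - b) * (a + b) = 0 := by linear_combination h
        rcases mul_eq_zero.1 this with h | h <;> linarith
    have hns : normSq ρ' = normSq ρ := by
      rw [hre] at e1
      have := mul_left_cancel₀ h1.ne' e1
      linarith
    rw [Complex.normSq_apply, Complex.normSq_apply, hre] at hns
    have him : (ρ'.im - ρ.im) * (ρ'.im + ρ.im) = 0 := by linear_combination hns
    rcases mul_eq_zero.1 him with h | h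
    · exact h4 (Complex.ext hre (by linarith))
    · exact h5 (Complex.ext (by simpa using hre) (by simp; linarith))
  have hnull := hcount.ae_notMem (volume : Measure ℝ)
  filter_upwards [hnull] with a ha hpos ρ ρ' h1 h2 h3 h4 h5
  by_contra hcon
  push Not at hcon
  apply ha
  simp only [Set.mem_iUnion]
  exact ⟨ρ, h1, ρ', h2, hpos, h3, h4, h5, hcon.1, hcon.2⟩

lemma zp_im {a : ℝ} (ha : 0 < a) {ρ : ℂ} (hρ : 0 < ρ.re) :
    zp a ρ = ((1 / normSq (ρ + a) : ℝ) : ℂ) * (((normSq ρ - a ^ 2 : ℝ) : ℂ) + ((2 * a * ρ.im : ℝ) : ℂ) * I) := by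
  have h1 := add_ne ha hρ
  unfold zp
  have h2 : ((normSq (ρ + a) : ℝ) : ℂ) = (ρ + a) * (starRingEnd ℂ) (ρ + a) := (Complex.mul_conj _).symm
  have h3 : (starRingEnd ℂ) (ρ + a) ≠ 0 := (map_ne_zero _).2 h1
  have h4 : ((normSq ρ : ℝ) : ℂ) = ρ * (starRingEnd ℂ) ρ := (Complex.mul_conj _).symm
  have h5 : ((2 * a * ρ.im : ℝ) : ℂ) * I = a * (ρ - (starRingEnd ℂ) ρ) := by
    rw [Complex.sub_conj]
    push_cast
    ring
  rw [h5]
  push_cast
  rw [h4]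
  have h6 : (1 : ℂ) / (normSq (ρ + a) : ℂ) = 1 / ((ρ + a) * (starRingEnd ℂ) (ρ + a)) := by rw [h2]
  rw [h6, div_mul_eq_mul_div, div_eq_div_iff h1 (mul_ne_zero h1 h3)]
  rw [map_add, Complex.conj_ofReal]
  ring

/-- the inverse of the angle -/
def psi (ρ : ℂ) (θ : ℝ) : ℝ :=
  -(ρ.im * (Real.cos θ / Real.sin θ)) + Real.sqrt ((ρ.im * (Real.cos θ / Real.sin θ)) ^ 2 + normSq ρ)

lemma arg_mem {a : ℝ} (ha : 0 < a) {ρ : ℂ} (hρ : 0 < ρ.re) (hρ' : 0 < ρ.im) :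
    arg (zp a ρ) ∈ Set.Ioo 0 π ∧ psi ρ (arg (zp a ρ)) = a := by
  have h1 := zp_im ha hρ
  have hn : 0 < normSq (ρ + a) := Complex.normSq_pos.2 (add_ne ha hρ)
  have him : (zp a ρ).im = 2 * a * ρ.im / normSq (ρ + a) := by
    rw [h1, Complex.im_ofReal_mul, Complex.add_im, Complex.ofReal_im, Complex.im_ofReal_mul, Complex.I_im]
    ring
  have hre : (zp a ρ).re = (normSq ρ - a ^ 2) / normSq (ρ + a) := by
    rw [h1, Complex.re_ofReal_mul, Complex.add_re, Complex.ofReal_re, Complex.re_ofReal_mul, Complex.I_re]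
    ring
  have him' : 0 < (zp a ρ).im := by
    rw [him]
    positivity
  have hz0 : zp a ρ ≠ 0 := fun h => by
    rw [h] at him'
    simp at him'
  have hs : Real.sin (arg (zp a ρ)) = (zp a ρ).im / ‖zp a ρ‖ := Complex.sin_arg _
  have hc : Real.cos (arg (zp a ρ)) = (zp a ρ).re / ‖zp a ρ‖ := Complex.cos_arg hz0
  have hnz : 0 < ‖zp a ρ‖ := norm_pos_iff.2 hz0
  refine ⟨⟨?_, ?_⟩, ?_⟩
  · have h0 := Complex.arg_nonneg_iff.2 him'.le
    rcases h0.lt_or_eq with h | h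
    · exact h
    · exfalso
      rw [← h, Real.sin_zero] at hs
      have := div_pos him' hnz
      linarith
  · refine lt_of_le_of_ne (Complex.arg_le_pi _) fun h => ?_
    rw [h, Real.sin_pi] at hs
    have := div_pos him' hnz
    linarith
  · have hcot : ρ.im * (Real.cos (arg (zp a ρ)) / Real.sin (arg (zp a ρ))) = (normSq ρ - a ^ 2) / (2 * a) := by
      rw [hs, hc, him, hre]
      field_simp
    unfold psi
    rw [hcot]
    have hsq : ((normSq ρ - a ^ 2) / (2 * a)) ^ 2 + normSq ρ = ((normSq ρ + a ^ 2) / (2 * a)) ^ 2 := by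
      field_simp
      ring
    rw [hsq, Real.sqrt_sq (by have := Complex.normSq_nonneg ρ; positivity)]
    field_simp
    ring

lemma psi_diff {ρ : ℂ} (hρ : 0 < ρ.re) : DifferentiableOn ℝ (psi ρ) (Set.Ioo 0 π) := by
  intro θ hθ
  have hs : Real.sin θ ≠ 0 := (Real.sin_pos_of_pos_of_lt_pi hθ.1 hθ.2).ne'
  have h1 : DifferentiableAt ℝ (fun θ : ℝ => ρ.im * (Real.cos θ / Real.sin θ)) θ :=
    (Real.differentiable_cos.differentiableAt.div Real.differentiable_sin.differentiableAt hs).const_mul _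
  have hn : 0 < normSq ρ := Complex.normSq_pos.2 fun h => by
    rw [h] at hρ
    simp at hρ
  have h2 : DifferentiableAt ℝ (fun θ : ℝ => Real.sqrt ((ρ.im * (Real.cos θ / Real.sin θ)) ^ 2 + normSq ρ)) θ :=
    ((h1.pow 2).add_const _).sqrt (add_pos_of_nonneg_of_pos (sq_nonneg _) hn).ne'
  exact (h1.neg.add h2).differentiableWithinAt

lemma ae_angle {ν : ℕ → ℕ} (hν : Function.Injective ν) {ρ : ℂ} (hρ : 0 < ρ.re) (hρ' : 0 < ρ.im) :
    ∀ᵐ a : ℝ, 0 < a → Weyl ν (arg (zp a ρ)) := by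
  have h1 := ae_weyl hν
  rw [ae_iff] at h1 ⊢
  have h2 : volume (psi ρ '' ({θ | ¬ Weyl ν θ} ∩ Set.Ioo 0 π)) = 0 :=
    addHaar_image_eq_zero_of_differentiableOn_of_addHaar_eq_zero volume ((psi_diff hρ).mono Set.inter_subset_right)
      (measure_mono_null Set.inter_subset_left h1)
  refine measure_mono_null (fun a ha => ?_) h2
  simp only [Set.mem_ofPred_eq, Classical.not_imp] at ha
  obtain ⟨h3, h4⟩ := arg_mem ha.1 hρ hρ'
  exact ⟨arg (zp a ρ), ⟨ha.2, h3⟩, h4⟩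

/-- the nearest zero -/
lemma nearest {f : ℂ → ℂ} (hf : Differentiable ℂ f) (hpos : ∀ x : ℝ, 0 < x → f x ≠ 0) {ρ₀ : ℂ} (h0 : f ρ₀ = 0)
    (h0' : 0 < ρ₀.re) {a : ℝ} (ha : 0 < a) (hT : NoTies f a) :
    ∃ ρ : ℂ, 0 < ρ.re ∧ 0 < ρ.im ∧ (f ρ = 0 ∨ f ((starRingEnd ℂ) ρ) = 0) ∧ ∃ R : ℝ, ‖zp a ρ‖ < R ∧ R < 1 ∧
      ∀ z ∈ closedBall (0 : ℂ) R, ph f a z = 0 → z = zp a ρ ∨ z = (starRingEnd ℂ) (zp a ρ) := by
  have hz0 := zp_norm ha h0'
  obtain ⟨R₁, hR₁, hR₁'⟩ := exists_between hz0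
  have hR₁0 : 0 ≤ R₁ := (norm_nonneg _).trans hR₁.le
  have hfin := finite_zeros hR₁0 (analyticOn_ph hf a hR₁') (by rw [ph_zero]; exact hpos a ha)
  set S := {z ∈ closedBall (0 : ℂ) R₁ | ph f a z = 0} with hS
  have hne : S.Nonempty := ⟨zp a ρ₀, by simpa using hR₁.le, by
    show f (wp a (zp a ρ₀)) = 0
    rw [wp_zp ha h0', h0]⟩
  obtain ⟨z₁, hz₁, hmin⟩ := Set.exists_min_image S (fun z => ‖z‖) hfin hne
  have hz₁n : ‖z₁‖ < R₁ := by
    have := hmin (zp a ρ₀) ⟨by simpa using hR₁.le, by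
      show f (wp a (zp a ρ₀)) = 0
      rw [wp_zp ha h0', h0]⟩
    exact lt_of_le_of_lt this hR₁
  have hz₁1 : ‖z₁‖ < 1 := hz₁n.trans hR₁'
  have hρ₁ : 0 < (wp a z₁).re := wp_re ha hz₁1
  have hfρ₁ : f (wp a z₁) = 0 := hz₁.2
  have him : (wp a z₁).im ≠ 0 := by
    intro h
    have e : wp a z₁ = (((wp a z₁).re : ℝ) : ℂ) := Complex.ext (by simp) (by simp [h])
    apply hpos _ hρ₁
    rw [← e]
    exact hfρ₁
  have hev : ∀ᶠ R in 𝓝[>] ‖z₁‖, ∀ z ∈ S, ‖z‖ ≤ R → ‖z‖ ≤ ‖z₁‖ := by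
    rw [Set.Finite.eventually_all hfin]
    intro z _
    by_cases h : ‖z‖ ≤ ‖z₁‖
    · exact Eventually.of_forall fun R _ => h
    · push Not at h
      filter_upwards [nhdsWithin_le_nhds (gt_mem_nhds h)] with R hR h2
      linarith
  have hlt : ∀ᶠ R in 𝓝[>] ‖z₁‖, R < R₁ := nhdsWithin_le_nhds (gt_mem_nhds hz₁n)
  have hgt : ∀ᶠ R in 𝓝[>] ‖z₁‖, ‖z₁‖ < R := self_mem_nhdsWithin
  obtain ⟨R, hR1, hR2, hR3⟩ := (hev.and (hlt.and hgt)).exists
  have hall : ∀ z ∈ closedBall (0 : ℂ) R, ph f a z = 0 → z = z₁ ∨ z = (starRingEnd ℂ) z₁ := by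
    intro z hz hφ
    have hzR : ‖z‖ ≤ R := by simpa using hz
    have hzS : z ∈ S := ⟨by simpa using hzR.trans hR2.le, hφ⟩
    have hz1 : ‖z‖ < 1 := lt_of_le_of_lt hzR (hR2.trans hR₁')
    have hnorm : ‖z₁‖ = ‖z‖ := le_antisymm (hmin z hzS) (hR1 z hzS hzR)
    have := hT (wp a z₁) (wp a z) hfρ₁ hφ hρ₁ (wp_re ha hz1) (by rw [zp_wp ha hz₁1, zp_wp ha hz1, hnorm])
    rcases this with h | h
    · left
      rw [← zp_wp ha hz1, h, zp_wp ha hz₁1]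
    · right
      rw [← zp_wp ha hz1, h, zp_conj, zp_wp ha hz₁1]
  rcases lt_or_gt_of_ne him with hneg | hp
  · refine ⟨(starRingEnd ℂ) (wp a z₁), by simpa using hρ₁, by simpa using hneg, Or.inr (by simpa using hfρ₁), R, ?_,
      hR2.trans hR₁', fun z hz hφ => ?_⟩
    · rw [zp_conj, Complex.norm_conj, zp_wp ha hz₁1]
      exact hR3
    · rw [zp_conj, zp_wp ha hz₁1]
      rcases hall z hz hφ with h | h
      · right
        rw [h]
        simp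
      · left
        exact h
  · refine ⟨wp a z₁, hρ₁, hp, Or.inl hfρ₁, R, ?_, hR2.trans hR₁', fun z hz hφ => ?_⟩
    · rw [zp_wp ha hz₁1]
      exact hR3
    · rw [zp_wp ha hz₁1]
      exact hall z hz hφ

lemma re_inv_pow {b : ℂ} (n : ℕ) : ((b⁻¹) ^ n).re = (‖b‖⁻¹) ^ n * Real.cos (n * arg b) := by
  have h1 : b⁻¹ = ((‖b‖⁻¹ : ℝ) : ℂ) * exp ((-(arg b) : ℝ) * I) := by
    conv_lhs => rw [← Complex.norm_mul_exp_arg_mul_I b]
    rw [mul_inv, ← Complex.exp_neg]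
    push_cast
    congr 2
    ring
  rw [h1, mul_pow, ← Complex.exp_nat_mul, ← Complex.ofReal_pow, Complex.re_ofReal_mul]
  congr 1
  have h2 : (n : ℂ) * (((-(arg b) : ℝ) : ℂ) * I) = ((-(n * arg b) : ℝ) : ℂ) * I := by
    push_cast
    ring
  rw [h2, Complex.exp_ofReal_mul_I_re, Real.cos_neg]

/-- the two cases of the expansion -/
lemma expand_re {φ : ℂ → ℂ} {R : ℝ} (hR : 0 < R) (hφ : AnalyticOnNhd ℂ φ (closedBall 0 R)) {b : ℂ}
    (hbc : b ≠ (starRingEnd ℂ) b) (hb : b ∈ closedBall (0 : ℂ) R) (hb0 : φ b = 0 ∨ φ ((starRingEnd ℂ) b) = 0)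
    (hφ0 : φ 0 ≠ 0) (hb' : b ≠ 0)
    (hz : ∀ z ∈ closedBall (0 : ℂ) R, φ z = 0 → z = b ∨ z = (starRingEnd ℂ) b) :
    ∃ m : ℝ, 0 < m ∧ ∃ C : ℝ, ∀ n : ℕ, 1 ≤ n →
      |(co n (ld φ)).re + m * (‖b‖⁻¹) ^ n * Real.cos (n * arg b)| ≤ C / R ^ n := by
  have hconj : ∀ n : ℕ, ((((starRingEnd ℂ) b)⁻¹) ^ n).re = ((b⁻¹) ^ n).re := by
    intro n
    rw [← map_inv₀, ← map_pow, Complex.conj_re]
  have hb'' : (starRingEnd ℂ) b ≠ 0 := (map_ne_zero _).2 hb'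
  have hball : (starRingEnd ℂ) b ∈ closedBall (0 : ℂ) R := by
    rw [mem_closedBall_zero_iff] at hb ⊢
    rwa [Complex.norm_conj]
  have hre : ∀ (m₁ m₂ n : ℕ) (X B : ℂ), (X + (m₁ * B ^ n + m₂ * B ^ n)).re = X.re + ((m₁ + m₂ : ℕ) : ℝ) * (B ^ n).re := by
    intro m₁ m₂ n X B
    rw [Complex.add_re, Complex.add_re, ← Complex.ofReal_natCast, ← Complex.ofReal_natCast,
      Complex.re_ofReal_mul, Complex.re_ofReal_mul]
    push_cast
    ring
  have hre2 : ∀ (m₁ m₂ n : ℕ) (X B B' : ℂ), (B' ^ n).re = (B ^ n).re →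
      (X + (m₁ * B ^ n + m₂ * B' ^ n)).re = X.re + ((m₁ + m₂ : ℕ) : ℝ) * (B ^ n).re := by
    intro m₁ m₂ n X B B' h
    rw [Complex.add_re, Complex.add_re, ← Complex.ofReal_natCast, ← Complex.ofReal_natCast,
      Complex.re_ofReal_mul, Complex.re_ofReal_mul, h]
    push_cast
    ring
  rcases hb0 with h0 | h0
  · obtain ⟨m₁, m₂, hm₁, C, hC⟩ := expand hR hφ hbc hb hball h0 hφ0 hb' hb'' hz
    refine ⟨((m₁ + m₂ : ℕ) : ℝ), by exact_mod_cast (by omega : 0 < m₁ + m₂), C, fun n hn => ?_⟩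
    have h1 := (Complex.abs_re_le_norm _).trans (hC n hn)
    rw [hre2 m₁ m₂ n _ _ _ (hconj n), re_inv_pow] at h1
    rwa [mul_assoc]
  · obtain ⟨m₁, m₂, hm₁, C, hC⟩ := expand hR hφ hbc.symm hball hb h0 hφ0 hb'' hb'
      (fun z hz' hφ' => (hz z hz' hφ').symm)
    refine ⟨((m₁ + m₂ : ℕ) : ℝ), by exact_mod_cast (by omega : 0 < m₁ + m₂), C, fun n hn => ?_⟩
    have h1 := (Complex.abs_re_le_norm _).trans (hC n hn)
    rw [hre2 m₁ m₂ n _ _ _ (hconj n).symm, hconj, re_inv_pow] at h1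
    rwa [mul_assoc]

/-- **Signs of the Taylor coefficients of `z φ_a' / φ_a` along an arbitrary sequence.** -/
theorem half_law {f : ℂ → ℂ} (hf : Differentiable ℂ f) (hpos : ∀ x : ℝ, 0 < x → f x ≠ 0)
    (hz : ∃ ρ, f ρ = 0 ∧ 0 < ρ.re) {ν : ℕ → ℕ} (hν : Function.Injective ν) :
    ∀ᵐ a : ℝ, 0 < a → ∃ c : ℝ, 0 < c ∧
      Tendsto (fr fun k => (co (ν k) (ld (ph f a))).re < -Real.exp (c * ν k)) atTop (𝓝 (1 / 2)) ∧
      Tendsto (fr fun k => Real.exp (c * ν k) < (co (ν k) (ld (ph f a))).re) atTop (𝓝 (1 / 2)) := by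
  obtain ⟨ρ₀, h0, h0'⟩ := hz
  have h1 : f ((1 : ℝ) : ℂ) ≠ 0 := hpos 1 one_pos
  have hZc : {ρ : ℂ | (f ρ = 0 ∨ f ((starRingEnd ℂ) ρ) = 0) ∧ 0 < ρ.re ∧ 0 < ρ.im}.Countable := by
    have hc := countable_zeros hf h1
    have hc2 : ((starRingEnd ℂ) '' {z | f z = 0}).Countable := hc.image _
    refine (hc.union hc2).mono ?_
    rintro ρ ⟨h | h, -, -⟩
    · exact Or.inl h
    · exact Or.inr ⟨(starRingEnd ℂ) ρ, h, by simp⟩
  have hA : ∀ᵐ a : ℝ, ∀ ρ ∈ {ρ : ℂ | (f ρ = 0 ∨ f ((starRingEnd ℂ) ρ) = 0) ∧ 0 < ρ.re ∧ 0 < ρ.im},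
      0 < a → Weyl ν (arg (zp a ρ)) :=
    (ae_ball_iff hZc).2 fun ρ hρ => ae_angle hν hρ.2.1 hρ.2.2
  filter_upwards [hA, ae_noTies hf h1] with a ha1 ha2 ha
  obtain ⟨ρ, hρ, hρ', hfρ, R, hR1, hR2, hall⟩ := nearest hf hpos h0 h0' ha (ha2 ha)
  have hW := ha1 ρ ⟨hfρ, hρ, hρ'⟩ ha
  have hφ0 : ph f a 0 ≠ 0 := by
    rw [ph_zero]
    exact hpos a ha
  have hR0 : 0 < R := lt_of_le_of_lt (norm_nonneg _) hR1
  have harg := (arg_mem ha hρ hρ').1
  have hz0 : zp a ρ ≠ 0 := by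
    intro h
    rw [h] at harg
    simp at harg
  have hne : zp a ρ ≠ (starRingEnd ℂ) (zp a ρ) := by
    intro h
    have h2 : (zp a ρ).im = 0 := Complex.conj_eq_iff_im.1 h.symm
    have h3 : Real.sin (arg (zp a ρ)) = 0 := by rw [Complex.sin_arg, h2, zero_div]
    exact (Real.sin_pos_of_pos_of_lt_pi harg.1 harg.2).ne' h3
  have hball : zp a ρ ∈ closedBall (0 : ℂ) R := by simpa using hR1.le
  have han := analyticOn_ph hf a hR2
  have hbz : ph f a (zp a ρ) = 0 ∨ ph f a ((starRingEnd ℂ) (zp a ρ)) = 0 := by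
    rcases hfρ with h | h
    · left
      show f (wp a (zp a ρ)) = 0
      rw [wp_zp ha hρ, h]
    · right
      show f (wp a ((starRingEnd ℂ) (zp a ρ))) = 0
      rw [← zp_conj, wp_zp ha (by rwa [Complex.conj_re]), h]
  have main := expand_re hR0 han hne hball hbz hφ0 hz0 hall
  obtain ⟨m, hm, C, hC⟩ := main
  exact signs (x := fun n => (co n (ld (ph f a))).re) hν hW hm (norm_pos_iff.2 hz0) hR1 hR2 hC

end

end Pool.Agent.E8helper6.LI
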