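import Pool.Agent.E8helper6.LI.Mod

set_option autoImplicit false

/-! Nonnegativity of the Taylor coefficients of `z φ_a' / φ_a` if all zeros of `f` are on the imaginary axis. -/

namespace Pool.Agent.E8helper6.LI

open Complex Filter Topology Metric Polynomial

noncomputable section

lemma co_zero_ld (φ : ℂ → ℂ) : co 0 (ld φ) = 0 := by
  unfold co ld
  simp

lemma ld_mul {φ ψ : ℂ → ℂ} (hφ : AnalyticAt ℂ φ 0) (hψ : AnalyticAt ℂ ψ 0) (h1 : φ 0 ≠ 0) (h2 : ψ 0 ≠ 0) :
    ld (fun z => φ z * ψ z) =ᶠ[𝓝 0] fun z => ld φ z + ld ψ z := by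
  filter_upwards [hφ.eventually_analyticAt, hψ.eventually_analyticAt, hφ.continuousAt.eventually_ne h1,
    hψ.continuousAt.eventually_ne h2] with z a1 a2 a3 a4
  unfold ld
  rw [deriv_fun_mul a1.differentiableAt a2.differentiableAt]
  field_simp

lemma co_ld_mul {φ ψ : ℂ → ℂ} (n : ℕ) (hφ : AnalyticAt ℂ φ 0) (hψ : AnalyticAt ℂ ψ 0) (h1 : φ 0 ≠ 0) (h2 : ψ 0 ≠ 0) :
    co n (ld (fun z => φ z * ψ z)) = co n (ld φ) + co n (ld ψ) := by
  rw [co_congr (ld_mul hφ hψ h1 h2), co_add (analytic_ld hφ h1) (analytic_ld hψ h2)]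

lemma ld_const (c : ℂ) : ld (fun _ => c) = fun _ => 0 := by
  funext z
  unfold ld
  simp

lemma co_ld_const (n : ℕ) (c : ℂ) : co n (ld (fun _ => c)) = 0 := by
  rw [ld_const]
  have h := co_const_mul (n := n) (h := fun _ => (0 : ℂ)) 0 analyticAt_const
  simpa using h

/-- a linear factor -/
lemma co_linear {a : ℝ} (ha : 0 < a) {ρ : ℂ} (hρ : ρ.re = 0) (n : ℕ) :
    0 ≤ (co n (ld (ph (fun w => w - ρ) a))).re := by
  rcases Nat.eq_zero_or_pos n with hn | hn
  · subst hn
    rw [co_zero_ld]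
    simp
  have ha' : (a : ℂ) ≠ 0 := by exact_mod_cast ha.ne'
  have hρa : ρ + a ≠ 0 := fun h => by
    have := congrArg Complex.re h
    simp [hρ] at this
    exact ha.ne' this
  have hρa' : ρ - a ≠ 0 := fun h => by
    have := congrArg Complex.re h
    simp [hρ] at this
    exact ha.ne' this
  have hb : zp a ρ ≠ 0 := div_ne_zero hρa' hρa
  have hbn : ‖zp a ρ‖ = 1 := by
    unfold zp
    rw [norm_div, div_eq_one_iff_eq (norm_ne_zero_iff.2 hρa)]
    rw [← sq_eq_sq₀ (norm_nonneg _) (norm_nonneg _), ← Complex.normSq_eq_norm_sq, ← Complex.normSq_eq_norm_sq,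
      Complex.normSq_apply, Complex.normSq_apply]
    simp [hρ]
  have e : ld (ph (fun w => w - ρ) a) =ᶠ[𝓝 0] fun z => z / (z - zp a ρ) - z / (z - 1) := by
    have h1 : ∀ᶠ z in 𝓝 (0 : ℂ), z ≠ zp a ρ := isOpen_ne.mem_nhds hb.symm
    have h2 : ∀ᶠ z in 𝓝 (0 : ℂ), z ≠ 1 := isOpen_ne.mem_nhds zero_ne_one
    have heq : ∀ z : ℂ, z ≠ 1 → ph (fun w => w - ρ) a z = (ρ + a) * (z - zp a ρ) / (1 - z) := by
      intro z hz
      have h3 : 1 - z ≠ 0 := sub_ne_zero.2 hz.symm
      unfold ph zp
      field_simp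
      ring
    filter_upwards [h1, h2, isOpen_ne.mem_nhds (zero_ne_one (α := ℂ))] with z hz1 hz2 hz3
    have h3 : 1 - z ≠ 0 := sub_ne_zero.2 hz2.symm
    have h3' : z - 1 ≠ 0 := sub_ne_zero.2 hz2
    have h4 : z - zp a ρ ≠ 0 := sub_ne_zero.2 hz1
    have hd : deriv (ph (fun w => w - ρ) a) z = (ρ + a) * (1 - zp a ρ) / (1 - z) ^ 2 := by
      have he : ph (fun w => w - ρ) a =ᶠ[𝓝 z] fun z => (ρ + a) * (z - zp a ρ) / (1 - z) := by
        filter_upwards [isOpen_ne.mem_nhds hz2] with w hw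
        exact heq w hw
      rw [he.deriv_eq]
      have d1 : HasDerivAt (fun z : ℂ => (ρ + a) * (z - zp a ρ)) (ρ + a) z := by
        have := ((hasDerivAt_id z).sub_const (zp a ρ)).const_mul (ρ + a)
        simpa using this
      have d2 : HasDerivAt (fun z : ℂ => 1 - z) (-1) z := by
        have := (hasDerivAt_id z).const_sub 1
        simpa using this
      rw [(d1.fun_div d2 h3).deriv]
      congr 1
      ring
    unfold ld
    rw [hd, heq z hz2]
    field_simp
    ring
  have hA : AnalyticAt ℂ (fun z : ℂ => z / (z - 1)) 0 := analyticAt_pole one_ne_zero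
  rw [co_congr e, co_sub (analyticAt_pole hb) hA, co_pole hn hb, co_pole hn one_ne_zero]
  have h5 : ‖((zp a ρ)⁻¹) ^ n‖ = 1 := by
    rw [norm_pow, norm_inv, hbn, inv_one, one_pow]
  have h6 := Complex.re_le_norm (((zp a ρ)⁻¹) ^ n)
  rw [h5] at h6
  simp only [inv_one, one_pow, Complex.sub_re, Complex.neg_re, Complex.one_re]
  linarith

/-- polynomials -/
lemma co_poly {a : ℝ} (ha : 0 < a) (P : ℂ[X]) (hP : ∀ z : ℂ, P.eval z = 0 → z.re = 0) (n : ℕ) :
    0 ≤ (co n (ld (ph (fun w => P.eval w) a))).re := by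
  have hP0 : P ≠ 0 := fun h => by
    have := hP 1 (by rw [h]; simp)
    simp at this
  have hroots : ∀ s : Multiset ℂ, (∀ ρ ∈ s, ρ.re = 0) →
      0 ≤ (co n (ld (ph (fun w => ((s.map fun ρ => X - C ρ).prod).eval w) a))).re := by
    intro s
    induction s using Multiset.induction_on with
    | empty =>
      intro _
      have : ph (fun w => (((0 : Multiset ℂ).map fun ρ => X - C ρ).prod).eval w) a = fun _ => 1 := by
        funext z
        simp [ph]
      rw [this, co_ld_const]
      simp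
    | cons ρ s ih =>
      intro h
      have h1 := ih fun ρ' hρ' => h ρ' (Multiset.mem_cons_of_mem hρ')
      have h2 := co_linear ha (h ρ (Multiset.mem_cons_self ρ s)) n
      have e : ph (fun w => (((ρ ::ₘ s).map fun ρ => X - C ρ).prod).eval w) a =
          fun z => ph (fun w => w - ρ) a z * ph (fun w => ((s.map fun ρ => X - C ρ).prod).eval w) a z := by
        funext z
        simp [ph]
      have d1 : AnalyticAt ℂ (ph (fun w => w - ρ) a) 0 :=
        analyticAt_ph (by fun_prop) a (by simp)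
      have d2 : AnalyticAt ℂ (ph (fun w => ((s.map fun ρ => X - C ρ).prod).eval w) a) 0 :=
        analyticAt_ph (Polynomial.differentiable _) a (by simp)
      have n1 : ph (fun w => w - ρ) a 0 ≠ 0 := by
        rw [ph_zero]
        intro h0
        have := congrArg Complex.re h0
        simp [h ρ (Multiset.mem_cons_self ρ s)] at this
        exact ha.ne' this
      have n2 : ph (fun w => ((s.map fun ρ => X - C ρ).prod).eval w) a 0 ≠ 0 := by
        rw [ph_zero]
        intro h0
        rw [Polynomial.eval_multiset_prod, Multiset.map_map, Multiset.prod_eq_zero_iff, Multiset.mem_map] at h0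
        obtain ⟨ρ', hρ', h3⟩ := h0
        have h4 := h ρ' (Multiset.mem_cons_of_mem hρ')
        have := congrArg Complex.re h3
        simp [h4] at this
        exact ha.ne' this
      rw [e, co_ld_mul n d1 d2 n1 n2, Complex.add_re]
      exact add_nonneg h2 h1
  have hsplit : P = C P.leadingCoeff * (P.roots.map fun ρ => X - C ρ).prod :=
    (IsAlgClosed.splits P).eq_prod_roots
  have h1 := hroots P.roots fun ρ hρ => hP ρ ((Polynomial.mem_roots hP0).1 hρ)
  have e : ph (fun w => P.eval w) a = fun z => (fun _ => P.leadingCoeff) z *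
      ph (fun w => ((P.roots.map fun ρ => X - C ρ).prod).eval w) a z := by
    funext z
    conv_lhs => rw [hsplit]
    simp [ph]
  have n2 : ph (fun w => ((P.roots.map fun ρ => X - C ρ).prod).eval w) a 0 ≠ 0 := by
    intro h0
    have h2 : P.eval (a : ℂ) = 0 := by
      have h3 := congrFun e 0
      rw [h0, mul_zero, ph_zero] at h3
      exact h3
    have := hP _ h2
    rw [Complex.ofReal_re] at this
    exact ha.ne' this
  have d2 : AnalyticAt ℂ (ph (fun w => ((P.roots.map fun ρ => X - C ρ).prod).eval w) a) 0 :=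
    analyticAt_ph (Polynomial.differentiable _) a (by simp)
  rw [e, co_ld_mul n analyticAt_const d2 (Polynomial.leadingCoeff_ne_zero.2 hP0) n2, co_ld_const, zero_add]
  exact h1

lemma iterated_tendsto {U : Set ℂ} (hU : IsOpen U) {F : ℕ → ℂ → ℂ} {f : ℂ → ℂ}
    (hF : TendstoLocallyUniformlyOn F f atTop U) (hd : ∀ N, DifferentiableOn ℂ (F N) U) (n : ℕ) :
    TendstoLocallyUniformlyOn (fun N => iteratedDeriv n (F N)) (iteratedDeriv n f) atTop U ∧
      ∀ N, DifferentiableOn ℂ (iteratedDeriv n (F N)) U := by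
  induction n with
  | zero =>
    simp only [iteratedDeriv_zero]
    exact ⟨hF, hd⟩
  | succ n ih =>
    simp only [iteratedDeriv_succ]
    refine ⟨ih.1.deriv (Eventually.of_forall ih.2) hU, fun N => (ih.2 N).deriv hU⟩

/-- **Nonnegativity.** -/
theorem nonneg {f : ℂ → ℂ} (hf : Differentiable ℂ f) {p : ℕ → ℂ[X]}
    (hp : ∀ (N : ℕ) (z : ℂ), (p N).eval z = 0 → f z = 0)
    (hlim : TendstoLocallyUniformly (fun (N : ℕ) (z : ℂ) => (p N).eval z) f atTop)
    (hz : ∀ z, f z = 0 → z.re = 0) {a : ℝ} (ha : 0 < a) (n : ℕ) :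
    0 ≤ (co n (ld (ph f a))).re := by
  have hU : IsOpen (ball (0 : ℂ) 1) := isOpen_ball
  have hn1 : ∀ {z : ℂ}, z ∈ ball (0 : ℂ) 1 → ‖z‖ < 1 := fun hz => by simpa using hz
  have hφd : ∀ g : ℂ → ℂ, Differentiable ℂ g → DifferentiableOn ℂ (ph g a) (ball 0 1) := fun g hg z hz =>
    (analyticAt_ph hg a (hn1 hz)).differentiableAt.differentiableWithinAt
  have hφ0 : ∀ g : ℂ → ℂ, (∀ w, g w = 0 → w.re = 0) → ∀ z ∈ ball (0 : ℂ) 1, ph g a z ≠ 0 := by
    intro g hg z hz h0
    have h1 : (wp a z).re = 0 := hg _ h0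
    have h2 := wp_re ha (hn1 hz)
    linarith
  have hpz : ∀ N (w : ℂ), (p N).eval w = 0 → w.re = 0 := fun N w hw => hz w (hp N w hw)
  have hcont : ContinuousOn (fun z : ℂ => (a : ℂ) * (1 + z) / (1 - z)) (ball 0 1) := by
    refine ContinuousOn.div (by fun_prop) (by fun_prop) fun z hz => one_sub_ne (hn1 hz)
  have hφlim : TendstoLocallyUniformlyOn (fun N => ph (fun w => (p N).eval w) a) (ph f a) atTop (ball 0 1) :=
    (tendstoLocallyUniformlyOn_univ.2 hlim).comp (fun z : ℂ => (a : ℂ) * (1 + z) / (1 - z))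
      (fun _ _ => Set.mem_univ _) hcont
  have hdlim := hφlim.deriv (Eventually.of_forall fun N => hφd _ (Polynomial.differentiable _)) hU
  have hldlim : TendstoLocallyUniformlyOn (fun N => ld (ph (fun w => (p N).eval w) a)) (ld (ph f a)) atTop
      (ball 0 1) := by
    have c1 : ContinuousOn (deriv (ph f a)) (ball 0 1) := ((hφd f hf).deriv hU).continuousOn
    have c2 : ContinuousOn (ph f a) (ball 0 1) := (hφd f hf).continuousOn
    have hid : TendstoLocallyUniformlyOn (fun (_ : ℕ) (z : ℂ) => z) (fun z => z) atTop (ball 0 1) := by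
      intro u hu x _
      refine ⟨Set.univ, Filter.univ_mem, Eventually.of_forall fun N y _ => refl_mem_uniformity hu⟩
    have h1 := (hid.mul₀ hdlim continuousOn_id c1).div₀ hφlim (continuousOn_id.mul c1) c2 (hφ0 f hz)
    exact h1
  have hdiff : ∀ N, DifferentiableOn ℂ (ld (ph (fun w => (p N).eval w) a)) (ball 0 1) := fun N z hz =>
    (analytic_ld (analyticAt_ph (Polynomial.differentiable _) a (hn1 hz))
      (hφ0 _ (hpz N) z hz)).differentiableAt.differentiableWithinAt
  have h2 := (iterated_tendsto hU hldlim hdiff n).1.tendsto_at (mem_ball_self one_pos)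
  have h3 : Tendsto (fun N => co n (ld (ph (fun w => (p N).eval w) a))) atTop (𝓝 (co n (ld (ph f a)))) :=
    h2.div_const _
  have h4 := (Complex.continuous_re.tendsto _).comp h3
  exact ge_of_tendsto' h4 fun N => co_poly ha (p N) (hpz N) n

end

end Pool.Agent.E8helper6.LI
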